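import Pool.Agent.H644R2.GKS.Prob

/-!
The bound for the expected cost of the protocol of a random design.
-/

open Finset

namespace H644R2.GKS

section static

variable {n : ℕ}

/-- the set left by the tuple `d` before stage `k` -/
def TD (U : Finset (Fin n)) {M : ℕ} (d : Fin M → Fin n) (k : ℕ) : Finset (Fin n) :=
  U.filter (fun x => ∀ j : Fin M, (j : ℕ) < k → d j ≠ x)

/-- the support Bob sees -/
def SD (U : Finset (Fin n)) {M : ℕ} (d : Fin M → Fin n) (b : Bool) (ℓ : Fin n) : Finset (Fin n) :=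
  if b = true then TD U d M else (TD U d M).erase ℓ

/-- the set tested at stage `k` for the true final set -/
noncomputable def A1 (U : Finset (Fin n)) (c : Fin n → ℕ) {m r : ℕ} (d : Fin (m + r) → Fin n)
    (k : ℕ) : Finset (Fin n) := TD U d (k + 1) ∩ Ck c m k

/-- the set tested at stage `k` for the candidate `x` with witness `e` -/
noncomputable def A2 (U : Finset (Fin n)) (c : Fin n → ℕ) {m r : ℕ} (d : Fin (m + r) → Fin n)
    (b : Bool) (ℓ : Fin n) (e : Fin r → Fin n) (x : Fin n) (k : ℕ) : Finset (Fin n) :=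
  (insert x (SD U d b ℓ) ∪ ext m e k) ∩ Ck c m k

/-- the static part of the event that `x` is a false positive with witness `e` -/
def St (U : Finset (Fin n)) (c : Fin n → ℕ) {m r : ℕ} (d : Fin (m + r) → Fin n)
    (b : Bool) (ℓ : Fin n) (e : Fin r → Fin n) (x : Fin n) : Prop :=
  (∀ k : Fin (m + r), c (d k) = min (k : ℕ) m) ∧
    (∀ a, c (e a) = m ∧ e a ∉ insert x (SD U d b ℓ)) ∧
    x ∉ SD U d b ℓ ∧ x ≠ ℓ ∧ ∀ a : Fin r, d (Fin.natAdd m a) ≠ x

lemma mem_SD {U : Finset (Fin n)} {M : ℕ} {d : Fin M → Fin n} {b : Bool} {ℓ y : Fin n}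
    (h : y ∈ TD U d M) (hy : y ≠ ℓ) : y ∈ SD U d b ℓ := by
  unfold SD
  split_ifs
  · exact h
  · exact mem_erase.2 ⟨hy, h⟩

lemma A_ne_one {U : Finset (Fin n)} {c : Fin n → ℕ} {m r : ℕ} {d : Fin (m + r) → Fin n}
    {b : Bool} {ℓ : Fin n} {e : Fin r → Fin n} {x : Fin n} (h : St U c d b ℓ e x)
    {a0 : Fin r} (h1 : e a0 ≠ ℓ) (h2 : ∀ a : Fin r, d (Fin.natAdd m a) ≠ e a0) {k : ℕ}
    (hk : k < m) : A1 U c d k ≠ A2 U c d b ℓ e x k := by
  obtain ⟨hc, he, -, -, -⟩ := h
  intro heq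
  have h3 : e a0 ∈ A2 U c d b ℓ e x k := by
    unfold A2
    rw [mem_inter, mem_union, mem_ext, mem_Ck]
    exact ⟨Or.inr ⟨a0, by omega, rfl⟩, Or.inr (he a0).1⟩
  rw [← heq] at h3
  unfold A1 TD at h3
  rw [mem_inter, mem_filter] at h3
  apply (he a0).2
  rw [mem_insert]
  right
  refine mem_SD ?_ h1
  unfold TD
  rw [mem_filter]
  refine ⟨h3.1.1, fun j _ => ?_⟩
  by_cases hjk : (j : ℕ) < k + 1
  · exact h3.1.2 j hjk
  · by_cases hjm : (j : ℕ) < m
    · intro h4
      have h5 := hc j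
      rw [h4, (he a0).1] at h5
      omega
    · have h4 := h2 ⟨j - m, by omega⟩
      have h5 : Fin.natAdd m (⟨j - m, by omega⟩ : Fin r) = j := by
        apply Fin.ext
        simp only [Fin.val_natAdd]
        omega
      rwa [h5] at h4

lemma A_ne_two {U : Finset (Fin n)} {c : Fin n → ℕ} {m r : ℕ} {d : Fin (m + r) → Fin n}
    {b : Bool} {ℓ : Fin n} {e : Fin r → Fin n} {x : Fin n} (h : St U c d b ℓ e x)
    (hcm : ∀ i, c i ≤ m) {k : ℕ} (hk : m ≤ k) : A1 U c d k ≠ A2 U c d b ℓ e x k := by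
  obtain ⟨-, -, hxS, hxℓ, hxd⟩ := h
  intro heq
  have h3 : x ∈ A2 U c d b ℓ e x k := by
    unfold A2
    rw [mem_inter, mem_union, mem_insert, mem_Ck]
    exact ⟨Or.inl (Or.inl rfl), Or.inl ((hcm x).trans hk)⟩
  rw [← heq] at h3
  unfold A1 TD at h3
  rw [mem_inter, mem_filter] at h3
  apply hxS
  refine mem_SD ?_ hxℓ
  unfold TD
  rw [mem_filter]
  refine ⟨h3.1.1, fun j _ => ?_⟩
  by_cases hjk : (j : ℕ) < k + 1
  · exact h3.1.2 j hjk
  · have h4 := hxd ⟨j - m, by omega⟩
    have h5 : Fin.natAdd m (⟨j - m, by omega⟩ : Fin r) = j := by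
      apply Fin.ext
      simp only [Fin.val_natAdd]
      omega
    rwa [h5] at h4

open Classical in
/-- The probability that `x` is a false positive with witness `e`, for the tuple `d`. -/
lemma mn_FP {U : Finset (Fin n)} {c : Fin n → ℕ} {m r q : ℕ} (hcm : ∀ i, c i ≤ m)
    (d : Fin (m + r) → Fin n) (b : Bool) (ℓ : Fin n) (e : Fin r → Fin n) (x : Fin n) :
    mn (fun F : Fin (m + r) → Finset (Fin n) → Fin (q + 1) =>
      if St U c d b ℓ e x ∧ ∀ k : Fin (m + r), gF F k (A1 U c d k) = true ∧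
        gF F k (A2 U c d b ℓ e x k) = true then (1 : ℝ) else 0) ≤
      (((q : ℝ) + 1)⁻¹) ^ (m + r) *
        (if ∀ a, e a ∈ insert ℓ (univ.image (fun a : Fin r => d (Fin.natAdd m a))) then
          (((q : ℝ) + 1)⁻¹) ^ r else (((q : ℝ) + 1)⁻¹) ^ m) := by
  set Q : ℝ := ((q : ℝ) + 1)⁻¹ with hQ
  have hQ0 : 0 < Q := by positivity
  have hQ1 : Q ≤ 1 := by
    rw [hQ]
    apply inv_le_one_of_one_le₀
    have : (0 : ℝ) ≤ q := Nat.cast_nonneg q
    linarith
  have hnn : 0 ≤ Q ^ (m + r) * (if ∀ a, e a ∈ insert ℓ (univ.image (fun a : Fin r =>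
      d (Fin.natAdd m a))) then Q ^ r else Q ^ m) := by
    split_ifs <;> positivity
  by_cases hSt : St U c d b ℓ e x
  · have h1 : ∀ F : Fin (m + r) → Finset (Fin n) → Fin (q + 1),
        (if St U c d b ℓ e x ∧ ∀ k : Fin (m + r), gF F k (A1 U c d k) = true ∧
          gF F k (A2 U c d b ℓ e x k) = true then (1 : ℝ) else 0) =
        (if ∀ k, F k ((fun k : Fin (m + r) => A1 U c d k) k) = 0 ∧
          F k ((fun k : Fin (m + r) => A2 U c d b ℓ e x k) k) = 0 then (1 : ℝ) else 0) := by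
      intro F
      simp only [gF_of_lt, hSt, true_and]
    refine ((mn_congr h1).trans (mn_all_tests n (m + r) q _ _)).trans_le ?_
    rw [prod_mul_distrib, prod_const, card_univ, Fintype.card_fin]
    refine mul_le_mul_of_nonneg_left ?_ (by positivity)
    rw [Fin.prod_univ_add]
    have hle : ∀ k : Fin (m + r), (if A1 U c d k = A2 U c d b ℓ e x k then 1 else Q) ≤ 1 := by
      intro k; split_ifs
      · exact le_rfl
      · exact hQ1
    have hnn' : ∀ k : Fin (m + r), 0 ≤ (if A1 U c d k = A2 U c d b ℓ e x k then 1 else Q) := by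
      intro k; split_ifs
      · exact zero_le_one
      · exact hQ0.le
    split_ifs with hcase
    · have h2 : ∏ i : Fin r, (if A1 U c d (Fin.natAdd m i) = A2 U c d b ℓ e x (Fin.natAdd m i) then
          1 else Q) = Q ^ r := by
        have : ∀ i : Fin r, (if A1 U c d (Fin.natAdd m i) = A2 U c d b ℓ e x (Fin.natAdd m i) then
          1 else Q) = Q := fun i => if_neg (A_ne_two hSt hcm (by simp))
        rw [prod_congr rfl (fun i _ => this i), prod_const, card_univ, Fintype.card_fin]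
      rw [h2]
      have h3 : ∏ i : Fin m, (if A1 U c d (Fin.castAdd r i) = A2 U c d b ℓ e x (Fin.castAdd r i)
          then 1 else Q) ≤ 1 := prod_le_one (fun i _ => hnn' _) (fun i _ => hle _)
      calc _ ≤ 1 * Q ^ r := mul_le_mul_of_nonneg_right h3 (by positivity)
        _ = Q ^ r := one_mul _
    · push Not at hcase
      obtain ⟨a0, ha0⟩ := hcase
      rw [mem_insert, mem_image] at ha0
      push Not at ha0
      have h2 : ∏ i : Fin m, (if A1 U c d (Fin.castAdd r i) = A2 U c d b ℓ e x (Fin.castAdd r i)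
          then 1 else Q) = Q ^ m := by
        have : ∀ i : Fin m, (if A1 U c d (Fin.castAdd r i) = A2 U c d b ℓ e x (Fin.castAdd r i)
          then 1 else Q) = Q := fun i => if_neg
            (A_ne_one hSt ha0.1 (fun a => ha0.2 a (mem_univ _)) (by simp))
        rw [prod_congr rfl (fun i _ => this i), prod_const, card_univ, Fintype.card_fin]
      rw [h2]
      have h3 : ∏ i : Fin r, (if A1 U c d (Fin.natAdd m i) = A2 U c d b ℓ e x (Fin.natAdd m i)
          then 1 else Q) ≤ 1 := prod_le_one (fun i _ => hnn' _) (fun i _ => hle _)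
      calc _ ≤ Q ^ m * 1 := mul_le_mul_of_nonneg_left h3 (by positivity)
        _ = Q ^ m := mul_one _
  · have h1 : ∀ F : Fin (m + r) → Finset (Fin n) → Fin (q + 1),
        (if St U c d b ℓ e x ∧ ∀ k : Fin (m + r), gF F k (A1 U c d k) = true ∧
          gF F k (A2 U c d b ℓ e x k) = true then (1 : ℝ) else 0) = 0 := by
      intro F
      rw [if_neg (fun h => hSt h.1)]
    rw [mn_congr h1]
    refine le_trans (le_of_eq ?_) hnn
    simp [mn]

end static

end H644R2.GKS
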