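import Pool.Agent.H644R2.GKS.Bound

/-!
The expected cost of the protocol of a random design.
-/

open Finset

namespace H644R2.GKS

section cost

variable {n t0 w m r q : ℕ}

lemma card_U (σ : Equiv.Perm (Fin n)) (h : t0 ≤ n) :
    (univ \ ((List.ofFn σ).take t0).toFinset : Finset (Fin n)).card = n - t0 := by
  rw [card_sdiff_of_subset (subset_univ _), card_univ, Fintype.card_fin,
    List.toFinset_card_of_nodup ((nodup_L σ).sublist (List.take_sublist _ _)), List.length_take,
    List.length_ofFn, min_eq_left h]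

lemma TT_eq_TD {c : Fin n → ℕ} {g : ℕ → Finset (Fin n) → Bool} {L : List (Fin n)}
    {d : Fin (m + r) → Fin n} (hd : IsTuple t0 w m r c g L d) {k : ℕ} (hk : k ≤ m + r) :
    TT t0 w (pass c m g) L k = TD (univ \ (L.take t0).toFinset) d k := by
  ext x
  rw [mem_TT_iff hd hk]
  unfold TD
  rw [mem_filter]
  rfl

open Classical in
/-- The deterministic bound for the size of Bob's set. -/
lemma card_bob_le {u : ℕ} (hn : n = t0 + u) (hu : u = (m + r) * w + (m + r) + 3)
    (c : Fin n → ℕ) (g : ℕ → Finset (Fin n) → Bool) (σ : Equiv.Perm (Fin n)) (b : Bool)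
    (ℓ : Fin n) (hℓ : (σ.symm ℓ : ℕ) + 1 = n) :
    ((((proto t0 w m r c g).bob ((proto t0 w m r c g).final σ b)).card : ℕ) : ℝ) ≤
      (n : ℝ) * (∑ k : Fin (m + r),
        if sel t0 w (pass c m g) (List.ofFn σ) k = none then (1 : ℝ) else 0) +
      ((u : ℝ) + 1 + r) +
      ∑ d ∈ Fintype.piFinset (fun k : Fin (m + r) => (Win t0 w (List.ofFn σ) k).toFinset),
        ∑ e : Fin r → Fin n, ∑ x : Fin n,
          (if St (univ \ ((List.ofFn σ).take t0).toFinset) c d b ℓ e x ∧
            ∀ k : Fin (m + r),
              g k (A1 (univ \ ((List.ofFn σ).take t0).toFinset) c d k) = true ∧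
              g k (A2 (univ \ ((List.ofFn σ).take t0).toFinset) c d b ℓ e x k) = true
            then (1 : ℝ) else 0) := by
  set L := List.ofFn σ with hL
  set U : Finset (Fin n) := univ \ (L.take t0).toFinset with hU
  have hLn : L.Nodup := nodup_L σ
  have hnn3 : 0 ≤ ∑ d ∈ Fintype.piFinset (fun k : Fin (m + r) => (Win t0 w L k).toFinset),
        ∑ e : Fin r → Fin n, ∑ x : Fin n,
          (if St U c d b ℓ e x ∧ ∀ k : Fin (m + r), g k (A1 U c d k) = true ∧
              g k (A2 U c d b ℓ e x k) = true then (1 : ℝ) else 0) := by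
    refine sum_nonneg fun d _ => sum_nonneg fun e _ => sum_nonneg fun x _ => ?_
    split_ifs <;> norm_num
  have hnn1 : ∀ k : Fin (m + r),
      0 ≤ (if sel t0 w (pass c m g) L k = none then (1 : ℝ) else 0) := by
    intro k; split_ifs <;> norm_num
  have hu0 : (0 : ℝ) ≤ (u : ℝ) + 1 + r := by positivity
  by_cases hok : ok t0 w (m + r) (pass c m g) L
  · obtain ⟨d, hd⟩ := exists_tuple hok
    have hTM : TT t0 w (pass c m g) L (m + r) = TD U d (m + r) := TT_eq_TD hd le_rfl
    have hsupp : supp ((proto t0 w m r c g).final σ b) = SD U d b ℓ := by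
      unfold SD
      cases b with
      | true =>
        rw [supp_ok_one σ (by omega) hok, if_pos rfl]
        exact hTM
      | false =>
        rw [supp_ok_zero σ hok ℓ hℓ, if_neg (by simp)]
        rw [← hL, hTM]
    have hcU : U.card = u := by
      rw [hU, hL, card_U σ (by omega)]; omega
    have hcT : u ≤ (TD U d (m + r)).card + (m + r) := by
      have := card_TT (t0 := t0) (w := w) (p := pass c m g) L (m + r)
      rw [hTM] at this
      have h0 : TT t0 w (pass c m g) L 0 = U := rfl
      rw [h0, hcU] at this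
      exact this
    have hcS : (TD U d (m + r)).card ≤ (SD U d b ℓ).card + 1 := by
      unfold SD
      split_ifs
      · omega
      · have := Finset.pred_card_le_card_erase (s := TD U d (m + r)) (a := ℓ)
        omega
    have hbig : ¬ (supp ((proto t0 w m r c g).final σ b)).card ≤ (m + r) * w + 1 := by
      rw [hsupp]; omega
    have hSU : (SD U d b ℓ).card ≤ u := by
      rw [← hcU]
      apply card_le_card
      intro y hy
      unfold SD at hy
      split_ifs at hy
      · exact (mem_filter.1 hy).1
      · exact (mem_filter.1 (mem_erase.1 hy).2).1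
    -- Bob's set
    set FPs : Finset (Fin n) := univ.filter (fun x => ∃ e : Fin r → Fin n,
      St U c d b ℓ e x ∧ ∀ k : Fin (m + r), g k (A1 U c d k) = true ∧
              g k (A2 U c d b ℓ e x k) = true) with hFPs
    have hsub : (proto t0 w m r c g).bob ((proto t0 w m r c g).final σ b) ⊆
        ((SD U d b ℓ ∪ {ℓ}) ∪ univ.image (fun a : Fin r => d (Fin.natAdd m a))) ∪ FPs := by
      intro x hx
      have hbob : (proto t0 w m r c g).bob ((proto t0 w m r c g).final σ b) =
          supp ((proto t0 w m r c g).final σ b) ∪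
            univ.filter (fun x => VT m r c g (insert x (supp ((proto t0 w m r c g).final σ b)))) := by
        conv_lhs => unfold proto
        simp only
        exact if_neg hbig
      rw [hbob, hsupp, mem_union, mem_filter] at hx
      by_cases h1 : x ∈ SD U d b ℓ
      · simp [h1]
      by_cases h2 : x = ℓ
      · simp [h2]
      by_cases h3 : ∃ a : Fin r, d (Fin.natAdd m a) = x
      · obtain ⟨a, ha⟩ := h3
        rw [mem_union, mem_union]
        left; right
        exact mem_image.2 ⟨a, mem_univ _, ha⟩
      rw [mem_union]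
      right
      rw [hFPs, mem_filter]
      refine ⟨mem_univ _, ?_⟩
      obtain ⟨e, he1, he2⟩ := (hx.resolve_left h1).2
      push Not at h3
      refine ⟨e, ⟨fun k => tuple_cls hd k, he1, h1, h2, h3⟩, fun k => ⟨?_, ?_⟩⟩
      · have := tuple_test hd k
        rw [TT_eq_TD hd (by have := k.2; omega)] at this
        exact this
      · exact he2 k k.2
    have hcard := card_le_card hsub
    have hcFP : ((FPs.card : ℕ) : ℝ) ≤
        ∑ d ∈ Fintype.piFinset (fun k : Fin (m + r) => (Win t0 w L k).toFinset),
        ∑ e : Fin r → Fin n, ∑ x : Fin n,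
          (if St U c d b ℓ e x ∧ ∀ k : Fin (m + r), g k (A1 U c d k) = true ∧
              g k (A2 U c d b ℓ e x k) = true then (1 : ℝ) else 0) := by
      have hdmem : d ∈ Fintype.piFinset (fun k : Fin (m + r) => (Win t0 w L k).toFinset) := by
        rw [Fintype.mem_piFinset]
        intro k
        rw [List.mem_toFinset]
        exact sel_mem (hd k)
      refine le_trans ?_ (single_le_sum (f := fun d => ∑ e : Fin r → Fin n, ∑ x : Fin n,
          (if St U c d b ℓ e x ∧ ∀ k : Fin (m + r), g k (A1 U c d k) = true ∧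
              g k (A2 U c d b ℓ e x k) = true then (1 : ℝ) else 0)) (fun d _ => ?_) hdmem)
      · rw [sum_comm, hFPs, card_filter, Nat.cast_sum]
        refine sum_le_sum fun x _ => ?_
        by_cases hex : ∃ e : Fin r → Fin n, St U c d b ℓ e x ∧
            ∀ k : Fin (m + r), g k (A1 U c d k) = true ∧ g k (A2 U c d b ℓ e x k) = true
        · rw [if_pos hex]
          obtain ⟨e, he⟩ := hex
          refine le_trans ?_ (single_le_sum (f := fun e : Fin r → Fin n =>
            (if St U c d b ℓ e x ∧ ∀ k : Fin (m + r), g k (A1 U c d k) = true ∧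
              g k (A2 U c d b ℓ e x k) = true then (1 : ℝ) else 0)) (fun e _ => ?_) (mem_univ e))
          · rw [if_pos he]
            simp
          · split_ifs <;> norm_num
        · rw [if_neg hex]
          simp only [Nat.cast_zero]
          refine sum_nonneg fun e _ => ?_
          split_ifs <;> norm_num
      · refine sum_nonneg fun e _ => sum_nonneg fun x _ => ?_
        split_ifs <;> norm_num
    have h1 : (((SD U d b ℓ ∪ {ℓ}) ∪ univ.image (fun a : Fin r => d (Fin.natAdd m a))) ∪ FPs).card
        ≤ u + 1 + r + FPs.card := by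
      refine (card_union_le _ _).trans (Nat.add_le_add_right ?_ _)
      refine (card_union_le _ _).trans (Nat.add_le_add ?_ ?_)
      · refine (card_union_le _ _).trans (Nat.add_le_add hSU ?_)
        simp
      · refine card_image_le.trans ?_
        simp
    have h2 : (((proto t0 w m r c g).bob ((proto t0 w m r c g).final σ b)).card : ℝ) ≤
        (u : ℝ) + 1 + r + FPs.card := by
      exact_mod_cast hcard.trans h1
    have h3 : 0 ≤ (n : ℝ) * (∑ k : Fin (m + r),
        if sel t0 w (pass c m g) L k = none then (1 : ℝ) else 0) :=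
      mul_nonneg (Nat.cast_nonneg _) (sum_nonneg fun k _ => hnn1 k)
    linarith
  · have h1 : ((((proto t0 w m r c g).bob ((proto t0 w m r c g).final σ b)).card : ℕ) : ℝ) ≤ n := by
      have := card_le_univ ((proto t0 w m r c g).bob ((proto t0 w m r c g).final σ b))
      rw [Fintype.card_fin] at this
      exact_mod_cast this
    unfold ok at hok
    push Not at hok
    obtain ⟨k, hk, hne⟩ := hok
    have hnone : sel t0 w (pass c m g) L ((⟨k, hk⟩ : Fin (m + r)) : ℕ) = none := by
      cases h : sel t0 w (pass c m g) L k with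
      | none => rfl
      | some i => exact absurd h (hne i)
    have h2 : (1 : ℝ) ≤ ∑ k : Fin (m + r),
        if sel t0 w (pass c m g) L k = none then (1 : ℝ) else 0 := by
      refine le_trans ?_ (single_le_sum (f := fun k : Fin (m + r) =>
        if sel t0 w (pass c m g) L k = none then (1 : ℝ) else 0) (fun k _ => hnn1 k)
        (mem_univ ⟨k, hk⟩))
      simp only
      rw [if_pos hnone]
    have h3 : (n : ℝ) ≤ n * (∑ k : Fin (m + r),
        if sel t0 w (pass c m g) L k = none then (1 : ℝ) else 0) := by
      have := mul_le_mul_of_nonneg_left h2 (Nat.cast_nonneg (α := ℝ) n)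
      linarith
    linarith

/-- the class function of a design, with natural values -/
def cN {n m : ℕ} (c : Fin n → Fin (m + 1)) : Fin n → ℕ := fun i => (c i : ℕ)

/-- the bound -/
noncomputable def DB (n w m r q : ℕ) : ℝ :=
  (n : ℝ) * ((m + r : ℕ) * (1 - ((q : ℝ) + 1)⁻¹ * ((m : ℝ) + 1)⁻¹) ^ w) +
    ((((m + r) * w + (m + r) + 3 : ℕ) : ℝ) + 1 + r) +
    (w : ℝ) ^ (m + r) * ((((q : ℝ) + 1)⁻¹) ^ (m + r) * (n *
      (((r + 1 : ℕ) : ℝ) ^ r * (((q : ℝ) + 1)⁻¹) ^ r + (n : ℝ) ^ r * (((q : ℝ) + 1)⁻¹) ^ m)))

lemma mn_bob_le (hn : n = t0 + ((m + r) * w + (m + r) + 3)) (σ : Equiv.Perm (Fin n)) (b : Bool) :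
    mn (fun c : Fin n → Fin (m + 1) =>
      mn (fun F : Fin (m + r) → Finset (Fin n) → Fin (q + 1) =>
        ((((proto t0 w m r (cN c) (gF F)).bob
          ((proto t0 w m r (cN c) (gF F)).final σ b)).card : ℕ) : ℝ))) ≤ DB n w m r q := by
  classical
  set Q : ℝ := ((q : ℝ) + 1)⁻¹ with hQ
  have hQ0 : 0 < Q := by positivity
  set ℓ : Fin n := σ ⟨n - 1, by omega⟩ with hℓdef
  have hℓ : (σ.symm ℓ : ℕ) + 1 = n := by
    rw [hℓdef, Equiv.symm_apply_apply]
    simp only
    omega
  set L := List.ofFn σ with hL
  set U : Finset (Fin n) := univ \ (L.take t0).toFinset with hU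
  have hlen : t0 + (m + r) * w ≤ L.length := by
    rw [hL, List.length_ofFn]; omega
  -- bound for fixed c
  have hc : ∀ c : Fin n → Fin (m + 1),
      mn (fun F : Fin (m + r) → Finset (Fin n) → Fin (q + 1) =>
        ((((proto t0 w m r (cN c) (gF F)).bob
          ((proto t0 w m r (cN c) (gF F)).final σ b)).card : ℕ) : ℝ)) ≤
      (n : ℝ) * (∑ k : Fin (m + r), mn (fun F : Fin (m + r) → Finset (Fin n) → Fin (q + 1) =>
        if sel t0 w (pass (cN c) m (gF F)) L k = none then (1 : ℝ) else 0)) +
      ((((m + r) * w + (m + r) + 3 : ℕ) : ℝ) + 1 + r) +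
      (w : ℝ) ^ (m + r) * (Q ^ (m + r) * (n *
        (((r + 1 : ℕ) : ℝ) ^ r * Q ^ r + (n : ℝ) ^ r * Q ^ m))) := by
    intro c
    have hcm : ∀ i, cN c i ≤ m := fun i => by
      unfold cN
      have := (c i).2
      omega
    refine (mn_mono fun F => card_bob_le hn rfl (cN c) (gF F) σ b ℓ hℓ).trans ?_
    rw [mn_add, mn_add, mn_mul_left, mn_finset_sum, mn_const, mn_finset_sum]
    refine add_le_add le_rfl ?_
    have hd : ∀ d ∈ Fintype.piFinset (fun k : Fin (m + r) => (Win t0 w L k).toFinset),
        mn (fun F : Fin (m + r) → Finset (Fin n) → Fin (q + 1) =>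
          ∑ e : Fin r → Fin n, ∑ x : Fin n,
          (if St U (cN c) d b ℓ e x ∧ ∀ k : Fin (m + r),
              gF F k (A1 U (cN c) d k) = true ∧ gF F k (A2 U (cN c) d b ℓ e x k) = true
            then (1 : ℝ) else 0)) ≤
          Q ^ (m + r) * (n * (((r + 1 : ℕ) : ℝ) ^ r * Q ^ r + (n : ℝ) ^ r * Q ^ m)) := by
      intro d _
      rw [mn_finset_sum]
      set R : Finset (Fin n) := insert ℓ (univ.image (fun a : Fin r => d (Fin.natAdd m a))) with hR
      have hcR : R.card ≤ r + 1 := by
        rw [hR]
        refine (card_insert_le _ _).trans ?_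
        have := card_image_le (s := (univ : Finset (Fin r))) (f := fun a : Fin r => d (Fin.natAdd m a))
        rw [card_univ, Fintype.card_fin] at this
        omega
      have he : ∀ e : Fin r → Fin n,
          mn (fun F : Fin (m + r) → Finset (Fin n) → Fin (q + 1) => ∑ x : Fin n,
          (if St U (cN c) d b ℓ e x ∧ ∀ k : Fin (m + r),
              gF F k (A1 U (cN c) d k) = true ∧ gF F k (A2 U (cN c) d b ℓ e x k) = true
            then (1 : ℝ) else 0)) ≤ n * (Q ^ (m + r) *
              (if e ∈ Fintype.piFinset (fun _ : Fin r => R) then Q ^ r else Q ^ m)) := by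
        intro e
        rw [mn_finset_sum]
        have hx := sum_le_sum fun (x : Fin n) (_ : x ∈ (univ : Finset (Fin n))) =>
          mn_FP (q := q) (U := U) hcm d b ℓ e x
        refine hx.trans (le_of_eq ?_)
        rw [sum_const, card_univ, Fintype.card_fin, nsmul_eq_mul]
        simp only [Fintype.mem_piFinset]
        rfl
      refine (sum_le_sum fun e _ => he e).trans ?_
      rw [← mul_sum, ← mul_sum]
      have hsum : ∑ e : Fin r → Fin n,
          (if e ∈ Fintype.piFinset (fun _ : Fin r => R) then Q ^ r else Q ^ m) ≤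
          ((r + 1 : ℕ) : ℝ) ^ r * Q ^ r + (n : ℝ) ^ r * Q ^ m := by
        have h1 : ∀ e : Fin r → Fin n,
            (if e ∈ Fintype.piFinset (fun _ : Fin r => R) then Q ^ r else Q ^ m) ≤
            (if e ∈ Fintype.piFinset (fun _ : Fin r => R) then Q ^ r else 0) + Q ^ m := by
          intro e
          have : 0 ≤ Q ^ m := by positivity
          have : 0 ≤ Q ^ r := by positivity
          split_ifs <;> linarith
        refine (sum_le_sum fun e _ => h1 e).trans ?_
        rw [sum_add_distrib, sum_ite_mem, univ_inter, sum_const, sum_const, card_univ,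
          Fintype.card_piFinset_const, Fintype.card_fun, Fintype.card_fin, Fintype.card_fin,
          nsmul_eq_mul, nsmul_eq_mul, Nat.cast_pow, Nat.cast_pow]
        have h2 : ((R.card : ℝ)) ^ r ≤ ((r + 1 : ℕ) : ℝ) ^ r := by
          gcongr
        have h3 : 0 ≤ Q ^ r := by positivity
        have := mul_le_mul_of_nonneg_right h2 h3
        linarith
      have hnn : 0 ≤ (n : ℝ) * Q ^ (m + r) := by positivity
      calc (n : ℝ) * (Q ^ (m + r) * ∑ e : Fin r → Fin n,
            (if e ∈ Fintype.piFinset (fun _ : Fin r => R) then Q ^ r else Q ^ m))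
          = (n : ℝ) * Q ^ (m + r) * ∑ e : Fin r → Fin n,
            (if e ∈ Fintype.piFinset (fun _ : Fin r => R) then Q ^ r else Q ^ m) := by ring
        _ ≤ (n : ℝ) * Q ^ (m + r) *
            (((r + 1 : ℕ) : ℝ) ^ r * Q ^ r + (n : ℝ) ^ r * Q ^ m) :=
            mul_le_mul_of_nonneg_left hsum hnn
        _ = _ := by ring
    refine (sum_le_sum hd).trans ?_
    rw [sum_const, Fintype.card_piFinset, nsmul_eq_mul, Nat.cast_prod]
    refine mul_le_mul_of_nonneg_right ?_ (by positivity)
    calc ∏ k : Fin (m + r), (((Win t0 w L k).toFinset.card : ℕ) : ℝ)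
        ≤ ∏ _k : Fin (m + r), (w : ℝ) := by
          refine prod_le_prod (fun k _ => Nat.cast_nonneg _) fun k _ => ?_
          have h1 : (Win t0 w L k).toFinset.card ≤ w := by
            refine (List.toFinset_card_le _).trans ?_
            unfold Win
            rw [List.length_take]
            exact min_le_left _ _
          exact_mod_cast h1
      _ = (w : ℝ) ^ (m + r) := by
          rw [prod_const, card_univ, Fintype.card_fin]
  refine (mn_mono hc).trans ?_
  rw [mn_add, mn_add, mn_const, mn_const, mn_mul_left, mn_finset_sum]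
  unfold DB
  refine le_of_eq ?_
  have hk : ∀ k : Fin (m + r), mn (fun c : Fin n → Fin (m + 1) =>
      mn (fun F : Fin (m + r) → Finset (Fin n) → Fin (q + 1) =>
        if sel t0 w (pass (cN c) m (gF F)) L k = none then (1 : ℝ) else 0)) =
      (1 - ((q : ℝ) + 1)⁻¹ * ((m : ℝ) + 1)⁻¹) ^ w :=
    fun k => fail_cF (nodup_L σ) hlen k
  rw [sum_congr rfl (fun (k : Fin (m + r)) _ => hk k), sum_const,
    card_univ, Fintype.card_fin, nsmul_eq_mul]

lemma cost_eq_mn (P : Protocol n) :
    P.cost = mn (fun σ : Equiv.Perm (Fin n) => mn (fun b : Bool =>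
      ((P.bob (P.final σ b)).card : ℝ))) := by
  unfold Protocol.cost mn
  rw [Fintype.card_perm, Fintype.card_fin, Fintype.card_bool, ← sum_div, div_div]
  push_cast
  rw [mul_comm]

/-- There is a valid protocol of small expected cost. -/
theorem exists_protocol (n w m r q : ℕ) (hn : (m + r) * w + (m + r) + 3 ≤ n) :
    ∃ P : Protocol n, P.Valid ∧ P.cost ≤ DB n w m r q := by
  obtain ⟨t0, ht0⟩ := Nat.exists_eq_add_of_le' hn
  have key : mn (fun c : Fin n → Fin (m + 1) =>
      mn (fun F : Fin (m + r) → Finset (Fin n) → Fin (q + 1) =>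
        (proto t0 w m r (cN c) (gF F)).cost)) ≤ DB n w m r q := by
    have h1 : ∀ c : Fin n → Fin (m + 1),
        mn (fun F : Fin (m + r) → Finset (Fin n) → Fin (q + 1) =>
          (proto t0 w m r (cN c) (gF F)).cost) =
        mn (fun σ : Equiv.Perm (Fin n) => mn (fun b : Bool =>
          mn (fun F : Fin (m + r) → Finset (Fin n) → Fin (q + 1) =>
            ((((proto t0 w m r (cN c) (gF F)).bob
              ((proto t0 w m r (cN c) (gF F)).final σ b)).card : ℕ) : ℝ)))) := by
      intro c
      rw [mn_congr (fun F => cost_eq_mn (proto t0 w m r (cN c) (gF F))), mn_comm]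
      refine mn_congr fun σ => ?_
      rw [mn_comm]
    rw [mn_congr h1, mn_comm]
    have h2 : ∀ σ : Equiv.Perm (Fin n),
        mn (fun c : Fin n → Fin (m + 1) => mn (fun b : Bool =>
          mn (fun F : Fin (m + r) → Finset (Fin n) → Fin (q + 1) =>
            ((((proto t0 w m r (cN c) (gF F)).bob
              ((proto t0 w m r (cN c) (gF F)).final σ b)).card : ℕ) : ℝ)))) ≤ DB n w m r q := by
      intro σ
      rw [mn_comm]
      refine (mn_mono (g := fun _ : Bool => DB n w m r q) fun b => mn_bob_le ht0 σ b).trans ?_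
      rw [mn_const]
    refine (mn_mono h2).trans ?_
    rw [mn_const]
  obtain ⟨c, hc⟩ := exists_le_of_mn_le key
  obtain ⟨F, hF⟩ := exists_le_of_mn_le hc
  exact ⟨_, proto_valid (by omega), hF⟩

end cost

end H644R2.GKS
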