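import Pool.Agent.H644R2.GKS.Cost

/-!
Choice of the parameters and the asymptotic statement.
-/

open Finset Filter Topology

namespace H644R2.GKS

lemma cost_nonneg {n : ℕ} (P : Protocol n) : 0 ≤ P.cost := by
  unfold Protocol.cost
  positivity

lemma costs_bddBelow (n : ℕ) : BddBelow (costs n) := by
  refine ⟨0, ?_⟩
  rintro x ⟨P, -, rfl⟩
  exact cost_nonneg P

lemma costs_nonempty (n : ℕ) : (costs n).Nonempty := by
  refine ⟨_, ⟨fun _ => false, fun _ => univ⟩, ?_, rfl⟩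
  intro σ b i _
  exact mem_univ _

lemma costs_finite (n : ℕ) : (costs n).Finite := by
  refine (Set.finite_range (fun B : Equiv.Perm (Fin n) → Bool → Finset (Fin n) =>
    (∑ σ, ∑ b, ((B σ b).card : ℝ)) / (n.factorial * 2))).subset ?_
  rintro x ⟨P, -, rfl⟩
  exact ⟨fun σ b => P.bob (P.final σ b), rfl⟩

lemma costs_isLeast (n : ℕ) : IsLeast (costs n) (Ct n) :=
  ⟨(costs_nonempty n).csInf_mem (costs_finite n), fun _ hx => csInf_le (costs_bddBelow n) hx⟩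

lemma Ct_nonneg (n : ℕ) : 0 ≤ Ct n := by
  obtain ⟨P, -, h⟩ := (costs_isLeast n).1
  rw [← h]
  exact cost_nonneg P

/-- numerical bound for `DB` -/
lemma DB_le {n s q w : ℕ} (hn : 1 ≤ n) (hq : n ≤ (q + 1) ^ s)
    (hw : 2 * ((s * (s + 1) : ℕ) + 1 : ℝ) * (q + 1) * Real.log n ≤ w)
    (hw' : (w : ℝ) ≤ 2 * ((s * (s + 1) : ℕ) + 1 : ℝ) * (q + 1) * Real.log n + 1) :
    DB n w (s * (s + 1)) s q ≤ ((s * (s + 1) + s : ℕ) : ℝ) +
      ((((s * (s + 1) + s) * w + (s * (s + 1) + s) + 3 : ℕ) : ℝ) + 1 + s) +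
      (2 * ((s * (s + 1) : ℕ) + 1 : ℝ) * Real.log n + 1) ^ (s * (s + 1) + s) *
        (((s + 1 : ℕ) : ℝ) ^ s + 1) := by
  unfold DB
  set m := s * (s + 1) with hm
  set Q : ℝ := ((q : ℝ) + 1)⁻¹ with hQ
  have hq0 : (0 : ℝ) < (q : ℝ) + 1 := by positivity
  have hQ0 : 0 < Q := by positivity
  have hQ1 : Q ≤ 1 := by
    rw [hQ]
    apply inv_le_one_of_one_le₀
    have : (0 : ℝ) ≤ q := Nat.cast_nonneg q
    linarith
  have hQq : Q * ((q : ℝ) + 1) = 1 := inv_mul_cancel₀ hq0.ne'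
  have hn0 : (0 : ℝ) < n := by exact_mod_cast hn
  have hlog : 0 ≤ Real.log n := Real.log_nonneg (by exact_mod_cast hn)
  have hm1 : (0 : ℝ) < (m : ℝ) + 1 := by positivity
  -- n Q^s ≤ 1
  have hnQ : (n : ℝ) * Q ^ s ≤ 1 := by
    have h1 : (n : ℝ) ≤ ((q : ℝ) + 1) ^ s := by exact_mod_cast hq
    calc (n : ℝ) * Q ^ s ≤ ((q : ℝ) + 1) ^ s * Q ^ s := by gcongr
      _ = 1 := by rw [← mul_pow, mul_comm, hQq, one_pow]
  refine add_le_add (add_le_add ?_ le_rfl) ?_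
  · -- failure
    have h1 : (1 - Q * ((m : ℝ) + 1)⁻¹) ^ w ≤ ((n : ℝ) ^ 2)⁻¹ := by
      have h2 : Q * ((m : ℝ) + 1)⁻¹ ≤ 1 := by
        have : ((m : ℝ) + 1)⁻¹ ≤ 1 := inv_le_one_of_one_le₀ (by
          have : (0 : ℝ) ≤ m := Nat.cast_nonneg m
          linarith)
        calc Q * ((m : ℝ) + 1)⁻¹ ≤ 1 * 1 := by gcongr
          _ = 1 := one_mul _
      have h3 : 1 - Q * ((m : ℝ) + 1)⁻¹ ≤ Real.exp (-(Q * ((m : ℝ) + 1)⁻¹)) := by
        have := Real.add_one_le_exp (-(Q * ((m : ℝ) + 1)⁻¹))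
        linarith
      calc (1 - Q * ((m : ℝ) + 1)⁻¹) ^ w
          ≤ Real.exp (-(Q * ((m : ℝ) + 1)⁻¹)) ^ w :=
            pow_le_pow_left₀ (by linarith) h3 w
        _ = Real.exp (-(Q * ((m : ℝ) + 1)⁻¹ * w)) := by
            rw [← Real.exp_nat_mul]
            congr 1
            ring
        _ ≤ Real.exp (-(2 * Real.log n)) := by
            rw [Real.exp_le_exp]
            have h4 : Q * ((m : ℝ) + 1)⁻¹ * (2 * ((m : ℝ) + 1) * (q + 1) * Real.log n) ≤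
                Q * ((m : ℝ) + 1)⁻¹ * w := mul_le_mul_of_nonneg_left hw (by positivity)
            have h5 : Q * ((m : ℝ) + 1)⁻¹ * (2 * ((m : ℝ) + 1) * (q + 1) * Real.log n) =
                2 * Real.log n := by
              calc _ = (Q * ((q : ℝ) + 1)) * (((m : ℝ) + 1)⁻¹ * ((m : ℝ) + 1)) *
                    (2 * Real.log n) := by ring
                _ = _ := by rw [hQq, inv_mul_cancel₀ hm1.ne']; ring
            linarith
        _ = ((n : ℝ) ^ 2)⁻¹ := by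
            rw [Real.exp_neg, show (2 : ℝ) * Real.log n = Real.log ((n : ℝ) ^ 2) by
              rw [Real.log_pow]; push_cast; ring, Real.exp_log (by positivity)]
    calc (n : ℝ) * (((m + s : ℕ) : ℝ) * (1 - Q * ((m : ℝ) + 1)⁻¹) ^ w)
        ≤ (n : ℝ) * (((m + s : ℕ) : ℝ) * ((n : ℝ) ^ 2)⁻¹) := by gcongr
      _ = ((m + s : ℕ) : ℝ) * (n : ℝ)⁻¹ := by field_simp
      _ ≤ ((m + s : ℕ) : ℝ) * 1 := by
          gcongr
          exact inv_le_one_of_one_le₀ (by exact_mod_cast hn)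
      _ = _ := mul_one _
  · have h1 : (w : ℝ) * Q ≤ 2 * ((m : ℝ) + 1) * Real.log n + 1 := by
      calc (w : ℝ) * Q ≤ (2 * ((m : ℝ) + 1) * (q + 1) * Real.log n + 1) * Q := by gcongr
        _ = 2 * ((m : ℝ) + 1) * Real.log n * (Q * ((q : ℝ) + 1)) + Q := by ring
        _ ≤ _ := by rw [hQq]; linarith
    have h2 : (n : ℝ) * ((n : ℝ) ^ s * Q ^ m) ≤ 1 := by
      calc (n : ℝ) * ((n : ℝ) ^ s * Q ^ m) = ((n : ℝ) * Q ^ s) ^ (s + 1) := by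
            rw [hm, mul_pow, ← pow_mul]; ring
        _ ≤ 1 := pow_le_one₀ (by positivity) hnQ
    have h3 : (n : ℝ) * (((s + 1 : ℕ) : ℝ) ^ s * Q ^ s + (n : ℝ) ^ s * Q ^ m) ≤
        ((s + 1 : ℕ) : ℝ) ^ s + 1 := by
      have h4 : ((s + 1 : ℕ) : ℝ) ^ s * ((n : ℝ) * Q ^ s) ≤ ((s + 1 : ℕ) : ℝ) ^ s * 1 := by
        gcongr
      calc _ = ((s + 1 : ℕ) : ℝ) ^ s * ((n : ℝ) * Q ^ s) + (n : ℝ) * ((n : ℝ) ^ s * Q ^ m) := by
            ring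
        _ ≤ ((s + 1 : ℕ) : ℝ) ^ s * 1 + 1 := add_le_add h4 h2
        _ = _ := by ring
    calc (w : ℝ) ^ (m + s) * (Q ^ (m + s) *
          ((n : ℝ) * (((s + 1 : ℕ) : ℝ) ^ s * Q ^ s + (n : ℝ) ^ s * Q ^ m)))
        = ((w : ℝ) * Q) ^ (m + s) *
          ((n : ℝ) * (((s + 1 : ℕ) : ℝ) ^ s * Q ^ s + (n : ℝ) ^ s * Q ^ m)) := by
          rw [mul_pow]; ring
      _ ≤ (2 * ((m : ℝ) + 1) * Real.log n + 1) ^ (m + s) * (((s + 1 : ℕ) : ℝ) ^ s + 1) := by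
          gcongr

/-- Main bound: `C̃(n) ≤ K n^δ`. -/
theorem Ct_le (δ : ℝ) (hδ : 0 < δ) (hδ1 : δ < 1) :
    ∃ K : ℝ, ∀ᶠ n : ℕ in atTop, Ct n ≤ K * (n : ℝ) ^ δ := by
  -- parameters
  obtain ⟨s, hs⟩ : ∃ s : ℕ, 2 / δ ≤ s := exists_nat_ge _
  have hs0 : (0 : ℝ) < s := lt_of_lt_of_le (by positivity) hs
  have hs1 : (1 : ℝ) / s ≤ δ / 2 := by
    rw [div_le_iff₀ hs0]
    rw [div_le_iff₀ hδ] at hs
    linarith
  have hsne : s ≠ 0 := by rintro rfl; simp at hs0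
  set m : ℕ := s * (s + 1) with hm
  set M : ℕ := m + s with hM
  set ε : ℝ := δ / (2 * (M + 1)) with hε
  have hM0 : (0 : ℝ) ≤ (M : ℝ) := Nat.cast_nonneg M
  have hε0 : 0 < ε := by positivity
  have hεM : ε * (M : ℝ) ≤ δ / 2 := by
    rw [hε, div_mul_eq_mul_div, div_le_div_iff₀ (by positivity) (by norm_num)]
    nlinarith
  have hε1 : ε ≤ δ / 2 := by
    rw [hε, div_le_div_iff₀ (by positivity) (by norm_num)]
    nlinarith
  set a : ℝ := 2 * ((m : ℝ) + 1) with ha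
  have ha0 : 0 ≤ a := by positivity
  -- constants
  set K1 : ℝ := a * 2 * ε⁻¹ + 1 with hK1
  set K2 : ℝ := (M : ℝ) * K1 + M + 3 + 1 + s with hK2
  set K3 : ℝ := (a * ε⁻¹ + 1) ^ M * (((s + 1 : ℕ) : ℝ) ^ s + 1) with hK3
  have hK10 : 0 ≤ K1 := by positivity
  have hK20 : 0 ≤ K2 := by positivity
  refine ⟨M + K2 + K3, ?_⟩
  -- eventually conditions
  have hev : ∀ᶠ n : ℕ in atTop, K2 ≤ (n : ℝ) ^ (1 - δ) := by
    have h1 : Tendsto (fun n : ℕ => (n : ℝ) ^ (1 - δ)) atTop atTop :=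
      (tendsto_rpow_atTop (by linarith)).comp tendsto_natCast_atTop_atTop
    exact h1.eventually_ge_atTop K2
  filter_upwards [hev, eventually_ge_atTop 1] with n hn2 hn
  have hn1 : (1 : ℝ) ≤ n := by exact_mod_cast hn
  have hn0 : (0 : ℝ) < n := by linarith
  have hlog : 0 ≤ Real.log n := Real.log_nonneg hn1
  have hlogε : Real.log n ≤ (n : ℝ) ^ ε * ε⁻¹ := by
    have := Real.log_le_rpow_div hn0.le hε0
    rwa [div_eq_mul_inv] at this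
  -- q
  obtain ⟨q, hq⟩ : ∃ q : ℕ, q + 1 = ⌈(n : ℝ) ^ ((1 : ℝ) / s)⌉₊ := by
    have h1 : 0 < ⌈(n : ℝ) ^ ((1 : ℝ) / s)⌉₊ := Nat.ceil_pos.2 (by positivity)
    exact ⟨⌈(n : ℝ) ^ ((1 : ℝ) / s)⌉₊ - 1, by omega⟩
  have hq1 : (n : ℝ) ^ ((1 : ℝ) / s) ≤ (q : ℝ) + 1 := by
    have := Nat.le_ceil ((n : ℝ) ^ ((1 : ℝ) / s))
    rw [← hq] at this
    exact_mod_cast this
  have hq2 : (q : ℝ) + 1 ≤ 2 * (n : ℝ) ^ ((1 : ℝ) / s) := by
    have h1 := Nat.ceil_lt_add_one (a := (n : ℝ) ^ ((1 : ℝ) / s)) (by positivity)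
    rw [← hq] at h1
    push_cast at h1
    have h2 : (1 : ℝ) ≤ (n : ℝ) ^ ((1 : ℝ) / s) := Real.one_le_rpow hn1 (by positivity)
    linarith
  have hqn : n ≤ (q + 1) ^ s := by
    have h1 : (n : ℝ) ≤ ((q : ℝ) + 1) ^ s := by
      calc (n : ℝ) = ((n : ℝ) ^ ((1 : ℝ) / s)) ^ s := by
            rw [← Real.rpow_natCast, ← Real.rpow_mul hn0.le, one_div_mul_cancel hs0.ne',
              Real.rpow_one]
        _ ≤ _ := by gcongr
    exact_mod_cast h1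
  -- w
  set w : ℕ := ⌈a * ((q : ℝ) + 1) * Real.log n⌉₊ with hwdef
  have hw1 : a * ((q : ℝ) + 1) * Real.log n ≤ w := Nat.le_ceil _
  have hw2 : (w : ℝ) ≤ a * ((q : ℝ) + 1) * Real.log n + 1 :=
    (Nat.ceil_lt_add_one (by positivity)).le
  have hpow1 : (1 : ℝ) ≤ (n : ℝ) ^ δ := Real.one_le_rpow hn1 hδ.le
  have hwK : (w : ℝ) ≤ K1 * (n : ℝ) ^ δ := by
    have h1 : a * ((q : ℝ) + 1) * Real.log n ≤
        a * (2 * (n : ℝ) ^ ((1 : ℝ) / s)) * ((n : ℝ) ^ ε * ε⁻¹) := by gcongr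
    have h2 : (n : ℝ) ^ ((1 : ℝ) / s) * (n : ℝ) ^ ε ≤ (n : ℝ) ^ δ := by
      rw [← Real.rpow_add hn0]
      exact Real.rpow_le_rpow_of_exponent_le hn1 (by linarith)
    have h3 : a * (2 * (n : ℝ) ^ ((1 : ℝ) / s)) * ((n : ℝ) ^ ε * ε⁻¹) =
        (a * 2 * ε⁻¹) * ((n : ℝ) ^ ((1 : ℝ) / s) * (n : ℝ) ^ ε) := by ring
    have h4 : (a * 2 * ε⁻¹) * ((n : ℝ) ^ ((1 : ℝ) / s) * (n : ℝ) ^ ε) ≤
        (a * 2 * ε⁻¹) * (n : ℝ) ^ δ := mul_le_mul_of_nonneg_left h2 (by positivity)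
    rw [hK1, add_mul, one_mul]
    linarith
  have hU : (((M * w + M + 3 : ℕ) : ℝ) + 1 + s) ≤ K2 * (n : ℝ) ^ δ := by
    push_cast
    have h1 : (M : ℝ) * w ≤ (M : ℝ) * (K1 * (n : ℝ) ^ δ) := mul_le_mul_of_nonneg_left hwK hM0
    have h2 : ((M : ℝ) + 3 + 1 + s) * 1 ≤ ((M : ℝ) + 3 + 1 + s) * (n : ℝ) ^ δ :=
      mul_le_mul_of_nonneg_left hpow1 (by positivity)
    calc (M : ℝ) * w + M + 3 + 1 + s = (M : ℝ) * w + ((M : ℝ) + 3 + 1 + s) * 1 := by ring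
      _ ≤ (M : ℝ) * (K1 * (n : ℝ) ^ δ) + ((M : ℝ) + 3 + 1 + s) * (n : ℝ) ^ δ := add_le_add h1 h2
      _ = K2 * (n : ℝ) ^ δ := by rw [hK2]; ring
  have hcond : M * w + M + 3 ≤ n := by
    have h1 : ((M * w + M + 3 : ℕ) : ℝ) ≤ n := by
      calc ((M * w + M + 3 : ℕ) : ℝ) ≤ (((M * w + M + 3 : ℕ) : ℝ) + 1 + s) := by linarith
        _ ≤ K2 * (n : ℝ) ^ δ := hU
        _ ≤ (n : ℝ) ^ (1 - δ) * (n : ℝ) ^ δ := by gcongr
        _ = n := by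
            rw [← Real.rpow_add hn0]
            simp
    exact_mod_cast h1
  obtain ⟨P, hPv, hPc⟩ := exists_protocol n w m s q hcond
  have h1 : Ct n ≤ P.cost := csInf_le (costs_bddBelow n) ⟨P, hPv, rfl⟩
  refine h1.trans (hPc.trans ((DB_le hn hqn hw1 hw2).trans ?_))
  rw [← hm, ← hM]
  have hA : (M : ℝ) ≤ (M : ℝ) * (n : ℝ) ^ δ := le_mul_of_one_le_right hM0 hpow1
  have hC : (2 * ((m : ℝ) + 1) * Real.log n + 1) ^ M * (((s + 1 : ℕ) : ℝ) ^ s + 1) ≤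
      K3 * (n : ℝ) ^ δ := by
    have h2 : 2 * ((m : ℝ) + 1) * Real.log n + 1 ≤ (a * ε⁻¹ + 1) * (n : ℝ) ^ ε := by
      have h3 : (1 : ℝ) ≤ (n : ℝ) ^ ε := Real.one_le_rpow hn1 hε0.le
      have h4 : a * Real.log n ≤ a * ((n : ℝ) ^ ε * ε⁻¹) := by gcongr
      rw [← ha]
      calc a * Real.log n + 1 ≤ a * ((n : ℝ) ^ ε * ε⁻¹) + (n : ℝ) ^ ε := add_le_add h4 h3
        _ = _ := by ring
    have h5 : (2 * ((m : ℝ) + 1) * Real.log n + 1) ^ M ≤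
        (a * ε⁻¹ + 1) ^ M * (n : ℝ) ^ δ := by
      calc (2 * ((m : ℝ) + 1) * Real.log n + 1) ^ M ≤ ((a * ε⁻¹ + 1) * (n : ℝ) ^ ε) ^ M := by
            gcongr
        _ = (a * ε⁻¹ + 1) ^ M * (n : ℝ) ^ (ε * M) := by
            rw [mul_pow, ← Real.rpow_natCast ((n : ℝ) ^ ε) M, ← Real.rpow_mul hn0.le]
        _ ≤ _ := by
            have : (n : ℝ) ^ (ε * M) ≤ (n : ℝ) ^ δ :=
              Real.rpow_le_rpow_of_exponent_le hn1 (by linarith)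
            gcongr
    calc _ ≤ ((a * ε⁻¹ + 1) ^ M * (n : ℝ) ^ δ) * (((s + 1 : ℕ) : ℝ) ^ s + 1) := by gcongr
      _ = K3 * (n : ℝ) ^ δ := by rw [hK3]; ring
  calc _ ≤ (M : ℝ) * (n : ℝ) ^ δ + K2 * (n : ℝ) ^ δ + K3 * (n : ℝ) ^ δ :=
        add_le_add (add_le_add hA hU) hC
    _ = _ := by ring

/-- `C̃(n) / n^δ → 0` for every `δ > 0`. -/
theorem Ct_tendsto (δ : ℝ) (hδ : 0 < δ) :
    Tendsto (fun n : ℕ => Ct n / (n : ℝ) ^ δ) atTop (𝓝 0) := by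
  obtain ⟨K, hK⟩ := Ct_le (min (δ / 2) (1 / 2)) (by positivity)
    (lt_of_le_of_lt (min_le_right _ _) (by norm_num))
  have hlim : Tendsto (fun n : ℕ => |K| * (n : ℝ) ^ (-(δ / 2))) atTop (𝓝 0) := by
    have h1 : Tendsto (fun n : ℕ => (n : ℝ) ^ (-(δ / 2))) atTop (𝓝 0) :=
      (tendsto_rpow_neg_atTop (by positivity)).comp tendsto_natCast_atTop_atTop
    simpa using h1.const_mul |K|
  refine squeeze_zero' ?_ ?_ hlim
  · filter_upwards with n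
    have := Ct_nonneg n
    positivity
  · filter_upwards [hK, eventually_ge_atTop 1] with n hn hn1
    have hn1' : (1 : ℝ) ≤ n := by exact_mod_cast hn1
    have hn0 : (0 : ℝ) < n := by linarith
    rw [div_le_iff₀ (by positivity)]
    calc Ct n ≤ K * (n : ℝ) ^ (min (δ / 2) (1 / 2)) := hn
      _ ≤ |K| * (n : ℝ) ^ (min (δ / 2) (1 / 2)) := by gcongr; exact le_abs_self K
      _ ≤ |K| * (n : ℝ) ^ (δ / 2) := by
          gcongr
          exact min_le_left _ _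
      _ = |K| * (n : ℝ) ^ (-(δ / 2)) * (n : ℝ) ^ δ := by
          rw [mul_assoc, ← Real.rpow_add hn0]
          congr 2
          ring

/-- There are no constants `δ, c > 0` with `C̃(n) ≥ c n^δ` for all large `n`. -/
theorem no_poly_lower_bound : ¬ ∃ δ : ℝ, 0 < δ ∧ ∃ c : ℝ, 0 < c ∧
    ∀ᶠ n : ℕ in atTop, c * (n : ℝ) ^ δ ≤ Ct n := by
  rintro ⟨δ, hδ, c, hc, h⟩
  have h1 := (Ct_tendsto δ hδ).eventually_lt_const hc
  obtain ⟨n, hn1, hn2, hn3⟩ := (h.and (h1.and (eventually_ge_atTop 1))).exists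
  have hn0 : (0 : ℝ) < n := by exact_mod_cast hn3
  rw [div_lt_iff₀ (by positivity)] at hn2
  linarith

end H644R2.GKS
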