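import Mathlib

/-!
# The permutation-streaming game (Gilmer, Koucky, Saks)

Definitions used by the hand-in `MP_a7c66d_lc`.
-/

open Finset

namespace H644R2.GKS

/-- A deterministic protocol for the game `G_n`.

`alice L` is the bit Alice writes when the last entry of the list `L` arrives, where `L` is the list
of all the entries that arrived so far, the current one included. (The bits written before are
functions of the earlier prefixes of `L`, so they carry no further information.)

`bob v` is the set Bob outputs when he sees the vector `v`. -/
structure Protocol (n : ℕ) where
  alice : List (Fin n) → Bool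
  bob : (Fin n → Bool) → Finset (Fin n)

/-- The final vector for the arrival order `σ 0, σ 1, …, σ (n-1)` and the bit `b`: the coordinate that
arrives last is set to `b`, and every other coordinate holds the bit Alice wrote at its arrival. -/
def Protocol.final {n : ℕ} (P : Protocol n) (σ : Equiv.Perm (Fin n)) (b : Bool) : Fin n → Bool :=
  fun i => if (σ.symm i : ℕ) + 1 = n then b
    else P.alice ((List.ofFn σ).take ((σ.symm i : ℕ) + 1))

/-- Bob's set always contains the entry that arrives last. -/
def Protocol.Valid {n : ℕ} (P : Protocol n) : Prop :=
  ∀ (σ : Equiv.Perm (Fin n)) (b : Bool) (i : Fin n), (σ.symm i : ℕ) + 1 = n →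
    i ∈ P.bob (P.final σ b)

/-- The expected size of Bob's set, for a uniformly random permutation and an independent uniform
bit. -/
noncomputable def Protocol.cost {n : ℕ} (P : Protocol n) : ℝ :=
  (∑ σ : Equiv.Perm (Fin n), ∑ b : Bool, ((P.bob (P.final σ b)).card : ℝ)) / (n.factorial * 2)

/-- The set of expected costs of the protocols for `G_n`. -/
def costs (n : ℕ) : Set ℝ := {x | ∃ P : Protocol n, P.Valid ∧ P.cost = x}

/-- `C̃(n)`: the minimum expected cost of a protocol for `G_n`. -/
noncomputable def Ct (n : ℕ) : ℝ := sInf (costs n)

end H644R2.GKS
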