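import Pool.Agent.H644R2.GKS.Model

/-!
The deletion process: windows, selected elements, and locality with respect to prefixes.
-/

open Finset

namespace H644R2.GKS

section process

variable {n : ℕ} (t0 w : ℕ) (p : ℕ → Finset (Fin n) → Fin n → Bool)

/-- the `k`-th window of the arrival list -/
def Win (L : List (Fin n)) (k : ℕ) : List (Fin n) := (L.drop (t0 + k * w)).take w

/-- the current set before stage `k` -/
def TT (L : List (Fin n)) : ℕ → Finset (Fin n)
  | 0 => univ \ (L.take t0).toFinset
  | k + 1 =>
    match (Win t0 w L k).find? (p k (TT L k)) with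
    | some i => (TT L k).erase i
    | none => TT L k

/-- the element selected at stage `k` -/
def sel (L : List (Fin n)) (k : ℕ) : Option (Fin n) := (Win t0 w L k).find? (p k (TT t0 w p L k))

variable {t0 w p}

lemma mem_TT_succ {L : List (Fin n)} {k : ℕ} {i : Fin n} :
    i ∈ TT t0 w p L (k + 1) ↔ i ∈ TT t0 w p L k ∧ sel t0 w p L k ≠ some i := by
  rw [TT]
  unfold sel
  cases h : (Win t0 w L k).find? (p k (TT t0 w p L k)) with
  | none => simp
  | some j =>
    simp only [mem_erase, ne_eq, Option.some.injEq]
    constructor
    · rintro ⟨h1, h2⟩; exact ⟨h2, fun h => h1 h.symm⟩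
    · rintro ⟨h1, h2⟩; exact ⟨fun h => h2 h.symm, h1⟩

lemma sel_mem {L : List (Fin n)} {k : ℕ} {i : Fin n} (h : sel t0 w p L k = some i) :
    i ∈ Win t0 w L k := List.mem_of_find?_eq_some h

lemma sel_pass {L : List (Fin n)} {k : ℕ} {i : Fin n} (h : sel t0 w p L k = some i) :
    p k (TT t0 w p L k) i = true := List.find?_some h

lemma Win_take (L : List (Fin n)) (k s : ℕ) :
    Win t0 w (L.take s) k = (Win t0 w L k).take (s - (t0 + k * w)) := by
  unfold Win
  rw [List.drop_take, List.take_take, List.take_take, min_comm]

lemma Win_sub_drop {L : List (Fin n)} {k : ℕ} {i : Fin n} (h : i ∈ Win t0 w L k) :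
    i ∈ L.drop (t0 + k * w) := List.mem_of_mem_take h

lemma TT_sub_zero {L : List (Fin n)} {i : Fin n} :
    ∀ {k : ℕ}, i ∈ TT t0 w p L k → i ∈ TT t0 w p L 0
  | 0, h => h
  | k + 1, h => TT_sub_zero (mem_TT_succ.1 h).1

lemma TT_anti {L : List (Fin n)} {i : Fin n} {j k : ℕ} (hjk : j ≤ k) (h : i ∈ TT t0 w p L k) :
    i ∈ TT t0 w p L j := by
  induction k, hjk using Nat.le_induction with
  | base => exact h
  | succ k _ ih => exact ih (mem_TT_succ.1 h).1

lemma not_mem_take_of_mem_drop {L : List (Fin n)} (hL : L.Nodup) {a : ℕ} {i : Fin n}
    (h : i ∈ L.drop a) : i ∉ L.take a :=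
  fun h' => (List.disjoint_take_drop hL le_rfl) h' h

lemma drop_sub {L : List (Fin n)} {a b : ℕ} (hab : a ≤ b) {i : Fin n} (h : i ∈ L.drop b) :
    i ∈ L.drop a := by
  obtain ⟨c, rfl⟩ := Nat.exists_eq_add_of_le hab
  rw [← List.drop_drop] at h
  exact List.mem_of_mem_drop h

lemma take_sub {L : List (Fin n)} {a b : ℕ} (hab : a ≤ b) {i : Fin n} (h : i ∈ L.take a) :
    i ∈ L.take b := by
  have : L.take a = (L.take b).take a := by rw [List.take_take, min_eq_left hab]
  rw [this] at h
  exact List.mem_of_mem_take h

/-- Everything that arrives from window `k` on is still in the current set before stage `k`. -/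
lemma mem_TT_of_drop {L : List (Fin n)} (hL : L.Nodup) {i : Fin n} :
    ∀ {k : ℕ}, i ∈ L.drop (t0 + k * w) → i ∈ TT t0 w p L k
  | 0, h => by
    rw [TT, mem_sdiff]
    refine ⟨mem_univ _, fun h' => ?_⟩
    rw [List.mem_toFinset] at h'
    rw [Nat.zero_mul, Nat.add_zero] at h
    exact not_mem_take_of_mem_drop hL h h'
  | k + 1, h => by
    rw [mem_TT_succ]
    have e : t0 + (k + 1) * w = t0 + k * w + w := by ring
    have h1 : i ∈ L.drop (t0 + k * w) := drop_sub (by omega) h
    refine ⟨mem_TT_of_drop hL h1, fun h2 => ?_⟩
    have h3 := sel_mem h2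
    rw [e, ← List.drop_drop] at h
    have hL' : (L.drop (t0 + k * w)).Nodup := hL.sublist (List.drop_sublist _ _)
    exact not_mem_take_of_mem_drop hL' h h3

lemma Win_sub_TT {L : List (Fin n)} (hL : L.Nodup) {i : Fin n} {k : ℕ}
    (h : i ∈ Win t0 w L k) : i ∈ TT t0 w p L k := mem_TT_of_drop hL (Win_sub_drop h)

/-- Locality, part A. -/
lemma TT_take_eq {L : List (Fin n)} {s : ℕ} :
    ∀ {k : ℕ}, t0 + k * w ≤ s → TT t0 w p (L.take s) k = TT t0 w p L k
  | 0, h => by
    rw [Nat.zero_mul, Nat.add_zero] at h
    rw [TT, TT, List.take_take, min_eq_left h]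
  | k + 1, h => by
    have e : t0 + (k + 1) * w = t0 + k * w + w := by ring
    have h1 := TT_take_eq (L := L) (s := s) (k := k) (by omega)
    have h2 : Win t0 w (L.take s) k = Win t0 w L k := by
      rw [Win_take]
      unfold Win
      rw [List.take_take, min_eq_right (by omega)]
    rw [TT, TT, h1, h2]

lemma sel_take_eq {L : List (Fin n)} {s k : ℕ} (h : t0 + (k + 1) * w ≤ s) :
    sel t0 w p (L.take s) k = sel t0 w p L k := by
  have e : t0 + (k + 1) * w = t0 + k * w + w := by ring
  have h1 := TT_take_eq (L := L) (s := s) (k := k) (p := p) (t0 := t0) (w := w) (by omega)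
  have h2 : Win t0 w (L.take s) k = Win t0 w L k := by
    rw [Win_take]
    unfold Win
    rw [List.take_take, min_eq_right (by omega)]
  unfold sel
  rw [h1, h2]

lemma find?_take_eq_some {W : List (Fin n)} (hW : W.Nodup) {q : Fin n → Bool} {j : ℕ} {i : Fin n}
    (hi : i ∈ W.take j) : (W.take j).find? q = some i ↔ W.find? q = some i := by
  have h0 : W.find? q = ((W.take j).find? q).or ((W.drop j).find? q) := by
    rw [← List.find?_append, List.take_append_drop]
  constructor
  · intro h
    rw [h0, h]; rfl
  · intro h
    cases h1 : (W.take j).find? q with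
    | some x =>
      rw [h0, h1] at h
      simpa using h
    | none =>
      rw [h0, h1] at h
      have h2 : (W.drop j).find? q = some i := by simpa using h
      exact absurd hi (not_mem_take_of_mem_drop hW (List.mem_of_find?_eq_some h2))

/-- Locality, part B. -/
lemma mem_TT_take {L : List (Fin n)} (hL : L.Nodup) {s : ℕ} {i : Fin n} (hi : i ∈ L.take s) :
    ∀ {k : ℕ}, i ∈ TT t0 w p (L.take s) k ↔ i ∈ TT t0 w p L k := by
  intro k
  by_cases hs : s < t0
  · have h1 : i ∈ L.take t0 := take_sub hs.le hi
    have h2 : i ∈ (L.take s).take t0 := by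
      rw [List.take_take, min_eq_right hs.le]; exact hi
    constructor
    · intro h
      have := TT_sub_zero h
      rw [TT, mem_sdiff, List.mem_toFinset] at this
      exact absurd h2 this.2
    · intro h
      have := TT_sub_zero h
      rw [TT, mem_sdiff, List.mem_toFinset] at this
      exact absurd h1 this.2
  · push_neg at hs
    induction k with
    | zero => rw [TT_take_eq (by omega)]
    | succ k ih =>
      have e : t0 + (k + 1) * w = t0 + k * w + w := by ring
      by_cases h1 : t0 + (k + 1) * w ≤ s
      · rw [TT_take_eq h1]
      · rw [mem_TT_succ, mem_TT_succ, ih]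
        refine and_congr_right fun hT => not_congr ?_
        by_cases h2 : t0 + k * w ≤ s
        · have hTT := TT_take_eq (L := L) (p := p) (k := k) h2
          unfold sel
          rw [hTT, Win_take]
          have hW : (Win t0 w L k).Nodup :=
            (hL.sublist (List.drop_sublist _ _)).sublist (List.take_sublist _ _)
          by_cases h3 : i ∈ (Win t0 w L k).take (s - (t0 + k * w))
          · exact find?_take_eq_some hW h3
          · constructor
            · intro h
              exact absurd (List.mem_of_find?_eq_some h) h3
            · intro h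
              exfalso
              apply h3
              have h4 := List.mem_of_find?_eq_some h
              have h5 : i ∈ (L.drop (t0 + k * w)) := Win_sub_drop h4
              have h6 : (Win t0 w L k).take (s - (t0 + k * w)) =
                  (L.take s).drop (t0 + k * w) := by
                unfold Win
                rw [List.take_take, min_eq_left (by omega), List.drop_take]
              rw [h6]
              have h7 : i ∉ (L.take s).take (t0 + k * w) := by
                rw [List.take_take, min_eq_left h2]
                exact not_mem_take_of_mem_drop hL h5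
              rw [← List.take_append_drop (t0 + k * w) (L.take s), List.mem_append] at hi
              exact hi.resolve_left h7
        · push_neg at h2
          constructor
          · intro h
            have h3 := sel_mem h
            rw [Win_take, Nat.sub_eq_zero_of_le h2.le] at h3
            simp at h3
          · intro h
            have h3 := Win_sub_drop (sel_mem h)
            exact absurd (take_sub h2.le hi) (not_mem_take_of_mem_drop hL h3)

lemma card_TT (L : List (Fin n)) : ∀ k : ℕ,
    (TT t0 w p L 0).card ≤ (TT t0 w p L k).card + k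
  | 0 => by simp
  | k + 1 => by
    have h1 := card_TT L k
    have h2 : (TT t0 w p L k).card ≤ (TT t0 w p L (k + 1)).card + 1 := by
      rw [TT]
      cases h : (Win t0 w L k).find? (p k (TT t0 w p L k)) with
      | none => simp
      | some j =>
        simp only
        have := Finset.pred_card_le_card_erase (s := TT t0 w p L k) (a := j)
        omega
    omega

end process

end H644R2.GKS
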