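import Pool.Agent.H644R2.GKS.Proto
import Pool.Agent.H644R2.Generic

/-!
Probability estimates for the random design.
-/

open Finset

namespace H644R2.GKS

/-- the tests given by a family of random functions of sets -/
def gF {n M q : ℕ} (F : Fin M → Finset (Fin n) → Fin (q + 1)) : ℕ → Finset (Fin n) → Bool :=
  fun k Z => if h : k < M then decide (F ⟨k, h⟩ Z = 0) else false

lemma gF_of_lt {n M q : ℕ} (F : Fin M → Finset (Fin n) → Fin (q + 1)) (k : Fin M)
    (Z : Finset (Fin n)) : gF F k Z = true ↔ F k Z = 0 := by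
  simp [gF]

section general

variable {P Q : Type*} [Fintype P] [Fintype Q] [DecidableEq P] [DecidableEq Q]

lemma mn_prod_subset [Nonempty Q] (s : Finset P) (u : P → Q → ℝ) :
    mn (fun φ : P → Q => ∏ z ∈ s, u z (φ z)) = ∏ z ∈ s, mn (u z) := by
  have h1 : ∀ φ : P → Q, ∏ z ∈ s, u z (φ z) = ∏ z, (fun z x => if z ∈ s then u z x else 1) z (φ z) := by
    intro φ
    simp [Finset.prod_ite_mem]
  refine (mn_congr h1).trans ((mn_pi_prod (fun z x => if z ∈ s then u z x else 1)).trans ?_)
  rw [← Finset.prod_subset (Finset.subset_univ s)]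
  · refine prod_congr rfl fun z hz => ?_
    refine mn_congr fun x => ?_
    simp [hz]
  · intro z _ hz
    simp only [if_neg hz]
    exact mn_const 1

end general

lemma mn_finset_sum {ι α : Type*} [Fintype α] (s : Finset ι) (f : ι → α → ℝ) :
    mn (fun a => ∑ i ∈ s, f i a) = ∑ i ∈ s, mn (f i) := by
  simp only [mn]
  rw [sum_comm, sum_div]

lemma exists_le_of_mn_le {α : Type*} [Fintype α] [Nonempty α] {f : α → ℝ} {D : ℝ}
    (h : mn f ≤ D) : ∃ a, f a ≤ D := by
  by_contra hcon
  push Not at hcon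
  have h1 : mn (fun _ : α => D) < mn f := by
    refine div_lt_div_of_pos_right ?_ (by exact_mod_cast Fintype.card_pos)
    exact sum_lt_sum_of_nonempty univ_nonempty fun a _ => hcon a
  rw [mn_const] at h1
  linarith

lemma mn_eq_zero (q : ℕ) : mn (fun x : Fin (q + 1) => if x = 0 then (1 : ℝ) else 0) =
    ((q : ℝ) + 1)⁻¹ := by
  have := mn_single (α := Fin (q + 1)) 0 (fun _ => (1 : ℝ))
  rw [this]
  simp

lemma mn_ne_zero (q : ℕ) : mn (fun x : Fin (q + 1) => if x = 0 then (0 : ℝ) else 1) =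
    1 - ((q : ℝ) + 1)⁻¹ := by
  rw [← mn_eq_zero q]
  have h : ∀ x : Fin (q + 1), (if x = 0 then (0 : ℝ) else 1) =
      (fun _ => (1 : ℝ)) x - (if x = 0 then (1 : ℝ) else 0) := by
    intro x; split_ifs <;> simp
  rw [mn_congr h, mn_sub, mn_const]

/-- two tests of the same random function -/
lemma mn_two (n q : ℕ) (A B : Finset (Fin n)) :
    mn (fun φ : Finset (Fin n) → Fin (q + 1) => if φ A = 0 ∧ φ B = 0 then (1 : ℝ) else 0) =
      ((q : ℝ) + 1)⁻¹ * (if A = B then 1 else ((q : ℝ) + 1)⁻¹) := by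
  have h1 : ∀ φ : Finset (Fin n) → Fin (q + 1), (if φ A = 0 ∧ φ B = 0 then (1 : ℝ) else 0) =
      ∏ z ∈ ({A, B} : Finset (Finset (Fin n))), (fun _ x => if x = 0 then (1 : ℝ) else 0) z (φ z) := by
    intro φ
    by_cases hAB : A = B
    · subst hAB
      simp
    · rw [prod_pair hAB]
      by_cases h1 : φ A = 0 <;> by_cases h2 : φ B = 0 <;> simp [h1, h2]
  refine (mn_congr h1).trans ((mn_prod_subset _ (fun (_ : Finset (Fin n)) (x : Fin (q + 1)) =>
    if x = 0 then (1 : ℝ) else 0)).trans ?_)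
  rw [prod_congr rfl (fun z _ => mn_eq_zero q), prod_const]
  by_cases hAB : A = B
  · subst hAB; simp
  · rw [if_neg hAB, card_pair hAB, pow_two]

/-- all the tests of two families of sets -/
lemma mn_all_tests (n M q : ℕ) (A B : Fin M → Finset (Fin n)) :
    mn (fun F : Fin M → Finset (Fin n) → Fin (q + 1) =>
      if ∀ k, F k (A k) = 0 ∧ F k (B k) = 0 then (1 : ℝ) else 0) =
      ∏ k, ((q : ℝ) + 1)⁻¹ * (if A k = B k then 1 else ((q : ℝ) + 1)⁻¹) := by
  have h1 : ∀ F : Fin M → Finset (Fin n) → Fin (q + 1),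
      (if ∀ k, F k (A k) = 0 ∧ F k (B k) = 0 then (1 : ℝ) else 0) =
      ∏ k, (fun k φ => if φ (A k) = 0 ∧ φ (B k) = 0 then (1 : ℝ) else 0) k (F k) := by
    intro F
    simp only
    rw [Finset.prod_ite_zero]
    simp
  refine (mn_congr h1).trans ((mn_pi_prod (P := Fin M) (Q := Finset (Fin n) → Fin (q + 1))
    (fun k φ => if φ (A k) = 0 ∧ φ (B k) = 0 then (1 : ℝ) else 0)).trans ?_)
  exact prod_congr rfl fun k _ => mn_two n q (A k) (B k)

section failure

variable {n : ℕ} {t0 w m r q : ℕ}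

lemma TT_congr {p p' : ℕ → Finset (Fin n) → Fin n → Bool} {L : List (Fin n)} :
    ∀ {k : ℕ}, (∀ j < k, p j = p' j) → TT t0 w p L k = TT t0 w p' L k
  | 0, _ => rfl
  | k + 1, h => by
    have h1 : TT t0 w p L k = TT t0 w p' L k := TT_congr fun j hj => h j (by omega)
    rw [TT, TT, h1, h k (by omega)]

lemma length_Win {L : List (Fin n)} {k M : ℕ} (hk : k < M) (hlen : t0 + M * w ≤ L.length) :
    (Win t0 w L k).length = w := by
  unfold Win
  rw [List.length_take, List.length_drop]
  have : (k + 1) * w ≤ M * w := Nat.mul_le_mul_right _ hk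
  have e : (k + 1) * w = k * w + w := by ring
  omega

lemma fail_F {L : List (Fin n)} (hL : L.Nodup) (c : Fin n → ℕ) (k : Fin (m + r)) :
    mn (fun F : Fin (m + r) → Finset (Fin n) → Fin (q + 1) =>
      if sel t0 w (pass c m (gF F)) L k = none then (1 : ℝ) else 0) =
      ∏ i ∈ (Win t0 w L k).toFinset,
        (if c i = min (k : ℕ) m then (1 - ((q : ℝ) + 1)⁻¹) else 1) := by
  rw [← mn_update k]
  rw [← mn_const (α := Fin (m + r) → Finset (Fin n) → Fin (q + 1))
    (∏ i ∈ (Win t0 w L k).toFinset, (if c i = min (k : ℕ) m then (1 - ((q : ℝ) + 1)⁻¹) else 1))]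
  refine mn_congr fun F => ?_
  set T := TT t0 w (pass c m (gF F)) L k with hT
  -- the state does not depend on the k-th function
  have hTT : ∀ φ, TT t0 w (pass c m (gF (Function.update F k φ))) L k = T := by
    intro φ
    apply TT_congr
    intro j hj
    have hjk : (⟨j, by omega⟩ : Fin (m + r)) ≠ k := by
      intro h; rw [← h] at hj; simp at hj
    funext T' i
    unfold pass gF
    rw [dif_pos (show j < m + r by omega), dif_pos (show j < m + r by omega),
      Function.update_of_ne hjk]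
  set I : Finset (Fin n) := (Win t0 w L k).toFinset.filter (fun i => c i = min (k : ℕ) m) with hI
  have hinj : Set.InjOn (fun i => (T.erase i) ∩ Ck c m k) (I : Set (Fin n)) := by
    intro i hi j hj hij
    by_contra hne
    simp only [hI, coe_filter, List.mem_toFinset, Set.mem_ofPred_eq] at hi hj
    have hjC : j ∈ Ck c m k := by
      rw [mem_Ck, hj.2]
      omega
    have hjT : j ∈ T := Win_sub_TT hL hj.1
    have h1 : j ∈ (T.erase i) ∩ Ck c m k := by
      rw [mem_inter, mem_erase]
      exact ⟨⟨fun h => hne h.symm, hjT⟩, hjC⟩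
    have hij' : (T.erase i) ∩ Ck c m k = (T.erase j) ∩ Ck c m k := hij
    rw [hij', mem_inter, mem_erase] at h1
    exact h1.1.1 rfl
  have h1 : ∀ φ : Finset (Fin n) → Fin (q + 1),
      (if sel t0 w (pass c m (gF (Function.update F k φ))) L k = none then (1 : ℝ) else 0) =
      ∏ z ∈ I.image (fun i => (T.erase i) ∩ Ck c m k),
        (fun _ x => if x = 0 then (0 : ℝ) else 1) z (φ z) := by
    intro φ
    rw [prod_image hinj]
    have h2 : sel t0 w (pass c m (gF (Function.update F k φ))) L k = none ↔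
        ∀ i ∈ I, φ ((T.erase i) ∩ Ck c m k) ≠ 0 := by
      unfold sel
      rw [hTT φ, List.find?_eq_none]
      constructor
      · intro h i hi h0
        simp only [hI, mem_filter, List.mem_toFinset] at hi
        apply h i hi.1
        rw [pass_iff]
        refine ⟨hi.2, ?_⟩
        rw [gF_of_lt, Function.update_self]
        exact h0
      · intro h i hi h0
        rw [pass_iff, gF_of_lt, Function.update_self] at h0
        refine h i ?_ h0.2
        simp only [hI, mem_filter, List.mem_toFinset]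
        exact ⟨hi, h0.1⟩
    by_cases h3 : ∀ i ∈ I, φ ((T.erase i) ∩ Ck c m k) ≠ 0
    · rw [if_pos (h2.2 h3)]
      rw [prod_congr rfl (fun i hi => if_neg (h3 i hi))]
      simp
    · rw [if_neg (fun h => h3 (h2.1 h))]
      push Not at h3
      obtain ⟨i, hi, h0⟩ := h3
      refine (prod_eq_zero (M₀ := ℝ) hi ?_).symm
      exact if_pos h0
  refine (mn_congr h1).trans ((mn_prod_subset _ (fun (_ : Finset (Fin n)) (x : Fin (q + 1)) =>
    if x = 0 then (0 : ℝ) else 1)).trans ?_)
  rw [prod_congr rfl (fun z _ => mn_ne_zero q), prod_const,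
    card_image_of_injOn hinj, ← prod_const, hI, prod_filter]

lemma fail_cF {L : List (Fin n)} (hL : L.Nodup) (hlen : t0 + (m + r) * w ≤ L.length)
    (k : Fin (m + r)) :
    mn (fun c : Fin n → Fin (m + 1) =>
      mn (fun F : Fin (m + r) → Finset (Fin n) → Fin (q + 1) =>
      if sel t0 w (pass (fun i => (c i : ℕ)) m (gF F)) L k = none then (1 : ℝ) else 0)) =
      (1 - ((q : ℝ) + 1)⁻¹ * ((m : ℝ) + 1)⁻¹) ^ w := by
  have h1 : ∀ c : Fin n → Fin (m + 1),
      mn (fun F : Fin (m + r) → Finset (Fin n) → Fin (q + 1) =>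
        if sel t0 w (pass (fun i => (c i : ℕ)) m (gF F)) L k = none then (1 : ℝ) else 0) =
      ∏ i ∈ (Win t0 w L k).toFinset,
        (fun _ v => 1 - ((q : ℝ) + 1)⁻¹ *
          (if v = (⟨min (k : ℕ) m, by omega⟩ : Fin (m + 1)) then 1 else 0)) i (c i) := by
    intro c
    rw [fail_F hL]
    refine prod_congr rfl fun i _ => ?_
    simp only
    by_cases h : (c i : ℕ) = min (k : ℕ) m
    · have h' : c i = (⟨min (k : ℕ) m, by omega⟩ : Fin (m + 1)) := Fin.ext h
      rw [if_pos h, if_pos h']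
      ring
    · have h' : c i ≠ (⟨min (k : ℕ) m, by omega⟩ : Fin (m + 1)) := fun h' => h (by rw [h'])
      rw [if_neg h, if_neg h']
      ring
  refine (mn_congr h1).trans ((mn_prod_subset _ (fun (_ : Fin n) (v : Fin (m + 1)) =>
    1 - ((q : ℝ) + 1)⁻¹ *
          (if v = (⟨min (k : ℕ) m, by omega⟩ : Fin (m + 1)) then 1 else 0))).trans ?_)
  have h2 : mn (fun v : Fin (m + 1) => 1 - ((q : ℝ) + 1)⁻¹ *
      (if v = (⟨min (k : ℕ) m, by omega⟩ : Fin (m + 1)) then 1 else 0)) =
      1 - ((q : ℝ) + 1)⁻¹ * ((m : ℝ) + 1)⁻¹ := by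
    rw [mn_sub, mn_const, mn_mul_left]
    have := mn_single (α := Fin (m + 1)) ⟨min (k : ℕ) m, by omega⟩ (fun _ => (1 : ℝ))
    rw [this]
    simp
  rw [prod_congr rfl (fun z _ => h2), prod_const]
  congr 1
  have hW : (Win t0 w L k).Nodup :=
    (hL.sublist (List.drop_sublist _ _)).sublist (List.take_sublist _ _)
  rw [List.toFinset_card_of_nodup hW]
  exact length_Win k.2 hlen

end failure

end H644R2.GKS
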