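import Pool.Agent.H644R2.GKS.Play

/-!
The protocol, and its correctness.
-/

open Finset

namespace H644R2.GKS

open Classical in
/-- the elements seen by test `k` -/
noncomputable def Ck {n : ℕ} (c : Fin n → ℕ) (m k : ℕ) : Finset (Fin n) :=
  univ.filter (fun y => c y ≤ k ∨ c y = m)

/-- the test of stage `k` -/
noncomputable def pass {n : ℕ} (c : Fin n → ℕ) (m : ℕ) (g : ℕ → Finset (Fin n) → Bool) (k : ℕ)
    (T : Finset (Fin n)) (i : Fin n) : Bool :=
  decide (c i = min k m) && g k ((T.erase i) ∩ Ck c m k)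

/-- all the stages before `M` succeed -/
def ok {n : ℕ} (t0 w M : ℕ) (p : ℕ → Finset (Fin n) → Fin n → Bool) (L : List (Fin n)) : Prop :=
  ∀ k < M, ∃ i, sel t0 w p L k = some i

/-- the support of a vector -/
def supp {n : ℕ} (v : Fin n → Bool) : Finset (Fin n) := univ.filter (fun i => v i = true)

/-- the elements of the tuple `e` that are deleted after stage `k` -/
def ext {n r : ℕ} (m : ℕ) (e : Fin r → Fin n) (k : ℕ) : Finset (Fin n) :=
  (univ.filter (fun b : Fin r => k < m + b)).image e

/-- Bob's validity test for a candidate final set. -/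
def VT {n : ℕ} (m r : ℕ) (c : Fin n → ℕ) (g : ℕ → Finset (Fin n) → Bool) (T : Finset (Fin n)) :
    Prop :=
  ∃ e : Fin r → Fin n, (∀ b, c (e b) = m ∧ e b ∉ T) ∧
    ∀ k < m + r, g k ((T ∪ ext m e k) ∩ Ck c m k) = true

open Classical in
/-- the protocol -/
noncomputable def proto {n : ℕ} (t0 w m r : ℕ) (c : Fin n → ℕ) (g : ℕ → Finset (Fin n) → Bool) :
    Protocol n where
  alice L :=
    match L.getLast? with
    | none => false
    | some i =>
      if L.length ≤ t0 + (m + r) * w then decide (i ∈ TT t0 w (pass c m g) L (m + r))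
      else decide (ok t0 w (m + r) (pass c m g) L)
  bob v :=
    if (supp v).card ≤ (m + r) * w + 1 then univ
    else supp v ∪ univ.filter (fun x => VT m r c g (insert x (supp v)))

lemma mem_ext {n r m : ℕ} {e : Fin r → Fin n} {k : ℕ} {x : Fin n} :
    x ∈ ext m e k ↔ ∃ b : Fin r, k < m + b ∧ e b = x := by
  simp [ext]

section correct

variable {n : ℕ} {t0 w m r : ℕ} {c : Fin n → ℕ} {g : ℕ → Finset (Fin n) → Bool}

lemma mem_Ck {k : ℕ} {y : Fin n} : y ∈ Ck c m k ↔ c y ≤ k ∨ c y = m := by
  simp [Ck]

lemma pass_iff {k : ℕ} {T : Finset (Fin n)} {i : Fin n} :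
    pass c m g k T i = true ↔ c i = min k m ∧ g k ((T.erase i) ∩ Ck c m k) = true := by
  simp [pass]

lemma getLast?_prefix (σ : Equiv.Perm (Fin n)) (i : Fin n) :
    ((List.ofFn σ).take ((σ.symm i : ℕ) + 1)).getLast? = some i := by
  have h : (σ.symm i : ℕ) < (List.ofFn σ).length := by
    rw [List.length_ofFn]; exact (σ.symm i).2
  rw [List.getLast?_take]
  simp

lemma mem_prefix (σ : Equiv.Perm (Fin n)) (i : Fin n) :
    i ∈ (List.ofFn σ).take ((σ.symm i : ℕ) + 1) :=
  List.mem_of_getLast? (getLast?_prefix σ i)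

lemma nodup_L (σ : Equiv.Perm (Fin n)) : (List.ofFn σ).Nodup := List.nodup_ofFn.2 σ.injective

open Classical in
lemma final_eq (σ : Equiv.Perm (Fin n)) (b : Bool) (i : Fin n) (hi : (σ.symm i : ℕ) + 1 ≠ n) :
    (proto t0 w m r c g).final σ b i =
      if (σ.symm i : ℕ) + 1 ≤ t0 + (m + r) * w then
        decide (i ∈ TT t0 w (pass c m g) ((List.ofFn σ).take ((σ.symm i : ℕ) + 1)) (m + r))
      else decide (ok t0 w (m + r) (pass c m g) ((List.ofFn σ).take ((σ.symm i : ℕ) + 1))) := by
  unfold Protocol.final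
  rw [if_neg hi]
  simp only [proto]
  rw [getLast?_prefix]
  simp only [List.length_take, List.length_ofFn]
  rw [min_eq_left (by have := (σ.symm i).2; omega)]

/-- positions and prefixes -/
lemma mem_take_iff (σ : Equiv.Perm (Fin n)) (i : Fin n) (a : ℕ) :
    i ∈ (List.ofFn σ).take a ↔ (σ.symm i : ℕ) < a := by
  rw [List.mem_take_iff_getElem]
  constructor
  · rintro ⟨j, hj, h⟩
    rw [List.getElem_ofFn] at h
    rw [← h]
    simp only [Equiv.symm_apply_apply]
    omega
  · intro h
    refine ⟨(σ.symm i : ℕ), ?_, ?_⟩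
    · rw [List.length_ofFn]
      have := (σ.symm i).2
      omega
    · rw [List.getElem_ofFn]
      simp

lemma mem_drop_iff (σ : Equiv.Perm (Fin n)) (i : Fin n) (a : ℕ) :
    i ∈ (List.ofFn σ).drop a ↔ a ≤ (σ.symm i : ℕ) := by
  constructor
  · intro h
    by_contra h'
    push Not at h'
    exact not_mem_take_of_mem_drop (nodup_L σ) h ((mem_take_iff σ i a).2 h')
  · intro h
    have h1 : i ∈ List.ofFn σ := by
      rw [List.mem_ofFn]
      exact ⟨σ.symm i, by simp⟩
    rw [← List.take_append_drop a (List.ofFn σ), List.mem_append] at h1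
    refine h1.resolve_left fun h2 => ?_
    have := (mem_take_iff σ i a).1 h2
    omega

open Classical in
lemma final_ok (σ : Equiv.Perm (Fin n)) (b : Bool)
    (hok : ok t0 w (m + r) (pass c m g) (List.ofFn σ)) (i : Fin n)
    (hi : (σ.symm i : ℕ) + 1 ≠ n) :
    (proto t0 w m r c g).final σ b i = true ↔
      i ∈ TT t0 w (pass c m g) (List.ofFn σ) (m + r) := by
  rw [final_eq σ b i hi]
  split_ifs with h
  · rw [decide_eq_true_iff]
    exact mem_TT_take (nodup_L σ) (mem_prefix σ i)
  · rw [decide_eq_true_iff]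
    have h1 : i ∈ TT t0 w (pass c m g) (List.ofFn σ) (m + r) :=
      mem_TT_of_drop (nodup_L σ) ((mem_drop_iff σ i _).2 (by omega))
    refine iff_of_true (fun k hk => ?_) h1
    obtain ⟨j, hj⟩ := hok k hk
    refine ⟨j, ?_⟩
    rw [sel_take_eq ?_]
    · exact hj
    · have : (k + 1) * w ≤ (m + r) * w := Nat.mul_le_mul_right _ hk
      omega

lemma supp_ok_one (σ : Equiv.Perm (Fin n)) (hM : t0 + (m + r) * w + 1 ≤ n)
    (hok : ok t0 w (m + r) (pass c m g) (List.ofFn σ)) :
    supp ((proto t0 w m r c g).final σ true) = TT t0 w (pass c m g) (List.ofFn σ) (m + r) := by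
  ext i
  simp only [supp, mem_filter, mem_univ, true_and]
  by_cases hi : (σ.symm i : ℕ) + 1 = n
  · have h1 : (proto t0 w m r c g).final σ true i = true := by
      unfold Protocol.final
      rw [if_pos hi]
    rw [h1]
    refine iff_of_true rfl ?_
    exact mem_TT_of_drop (nodup_L σ) ((mem_drop_iff σ i _).2 (by omega))
  · exact final_ok σ true hok i hi

lemma supp_ok_zero (σ : Equiv.Perm (Fin n)) 
    (hok : ok t0 w (m + r) (pass c m g) (List.ofFn σ)) (ℓ : Fin n) (hℓ : (σ.symm ℓ : ℕ) + 1 = n) :
    supp ((proto t0 w m r c g).final σ false) =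
      (TT t0 w (pass c m g) (List.ofFn σ) (m + r)).erase ℓ := by
  ext i
  simp only [supp, mem_filter, mem_univ, true_and, mem_erase]
  by_cases hi : (σ.symm i : ℕ) + 1 = n
  · have h1 : (proto t0 w m r c g).final σ false i = false := by
      unfold Protocol.final
      rw [if_pos hi]
    have h2 : i = ℓ := by
      have : σ.symm i = σ.symm ℓ := Fin.ext (by omega)
      exact σ.symm.injective this
    rw [h1]
    simp [h2]
  · have h2 : i ≠ ℓ := by
      rintro rfl; exact hi hℓ
    rw [final_ok σ false hok i hi]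
    simp [h2]

open Classical in
lemma card_supp_not_ok (σ : Equiv.Perm (Fin n)) (b : Bool) 
    (hok : ¬ ok t0 w (m + r) (pass c m g) (List.ofFn σ)) :
    (supp ((proto t0 w m r c g).final σ b)).card ≤ (m + r) * w + 1 := by
  have hsub : supp ((proto t0 w m r c g).final σ b) ⊆
      (((List.ofFn σ).drop t0).take ((m + r) * w)).toFinset ∪
        univ.filter (fun i : Fin n => (σ.symm i : ℕ) + 1 = n) := by
    intro i hi
    simp only [supp, mem_filter, mem_univ, true_and] at hi
    rw [mem_union]
    by_cases hin : (σ.symm i : ℕ) + 1 = n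
    · right; simpa using hin
    · left
      rw [final_eq σ b i hin] at hi
      rw [List.mem_toFinset]
      split_ifs at hi with h
      · rw [decide_eq_true_iff, mem_TT_take (nodup_L σ) (mem_prefix σ i)] at hi
        have h1 := TT_sub_zero hi
        rw [TT, mem_sdiff, List.mem_toFinset, mem_take_iff] at h1
        have h2 : i ∈ ((List.ofFn σ).take (t0 + (m + r) * w)).drop t0 := by
          have h3 : i ∈ (List.ofFn σ).take (t0 + (m + r) * w) := by
            rw [mem_take_iff]; omega
          rw [← List.take_append_drop t0 ((List.ofFn σ).take (t0 + (m + r) * w)),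
            List.mem_append] at h3
          refine h3.resolve_left fun h4 => ?_
          rw [List.take_take, min_eq_left (by omega), mem_take_iff] at h4
          exact h1.2 h4
        rw [List.drop_take] at h2
        have e : t0 + (m + r) * w - t0 = (m + r) * w := by omega
        rwa [e] at h2
      · rw [decide_eq_true_iff] at hi
        exfalso
        apply hok
        intro k hk
        obtain ⟨j, hj⟩ := hi k hk
        refine ⟨j, ?_⟩
        rw [sel_take_eq ?_] at hj
        · exact hj
        · have : (k + 1) * w ≤ (m + r) * w := Nat.mul_le_mul_right _ hk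
          omega
  refine (card_le_card hsub).trans ((card_union_le _ _).trans ?_)
  refine Nat.add_le_add ?_ ?_
  · refine (List.toFinset_card_le _).trans ?_
    rw [List.length_take]
    exact min_le_left _ _
  · rw [Finset.card_le_one]
    intro a ha b hb
    simp only [mem_filter, mem_univ, true_and] at ha hb
    have : σ.symm a = σ.symm b := Fin.ext (by omega)
    exact σ.symm.injective this

/-- the tuple of the deleted elements -/
def IsTuple (t0 w m r : ℕ) (c : Fin n → ℕ) (g : ℕ → Finset (Fin n) → Bool) (L : List (Fin n))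
    (d : Fin (m + r) → Fin n) : Prop :=
  ∀ k : Fin (m + r), sel t0 w (pass c m g) L k = some (d k)

lemma exists_tuple {L : List (Fin n)} (hok : ok t0 w (m + r) (pass c m g) L) :
    ∃ d : Fin (m + r) → Fin n, IsTuple t0 w m r c g L d := by
  choose d hd using fun k : Fin (m + r) => hok k k.2
  exact ⟨d, hd⟩

lemma mem_TT_iff {L : List (Fin n)} {d : Fin (m + r) → Fin n}
    (hd : IsTuple t0 w m r c g L d) {x : Fin n} :
    ∀ {k : ℕ}, k ≤ m + r → (x ∈ TT t0 w (pass c m g) L k ↔
      x ∈ TT t0 w (pass c m g) L 0 ∧ ∀ j : Fin (m + r), (j : ℕ) < k → d j ≠ x)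
  | 0, _ => by simp
  | k + 1, hk => by
    rw [mem_TT_succ, mem_TT_iff hd (by omega), hd ⟨k, by omega⟩]
    constructor
    · rintro ⟨⟨h1, h2⟩, h3⟩
      refine ⟨h1, fun j hj => ?_⟩
      rcases Nat.lt_succ_iff_lt_or_eq.1 hj with h | h
      · exact h2 j h
      · intro h4
        apply h3
        rw [← h4]
        congr 2
        exact Fin.ext h.symm
    · rintro ⟨h1, h2⟩
      refine ⟨⟨h1, fun j hj => h2 j (by omega)⟩, fun h3 => ?_⟩
      rw [Option.some.injEq] at h3
      exact h2 ⟨k, by omega⟩ (by simp) h3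

lemma tuple_cls {L : List (Fin n)} {d : Fin (m + r) → Fin n}
    (hd : IsTuple t0 w m r c g L d) (k : Fin (m + r)) : c (d k) = min (k : ℕ) m :=
  (pass_iff.1 (sel_pass (hd k))).1

lemma tuple_test {L : List (Fin n)} {d : Fin (m + r) → Fin n}
    (hd : IsTuple t0 w m r c g L d) (k : Fin (m + r)) :
    g k ((TT t0 w (pass c m g) L (k + 1)) ∩ Ck c m k) = true := by
  have h1 := (pass_iff.1 (sel_pass (hd k))).2
  have h2 : TT t0 w (pass c m g) L ((k : ℕ) + 1) = (TT t0 w (pass c m g) L k).erase (d k) := by
    ext x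
    rw [mem_TT_succ, hd k, mem_erase, Ne, Option.some.injEq, and_comm, ne_comm]
  rw [h2]
  exact h1

lemma tuple_mem {L : List (Fin n)} (hL : L.Nodup) {d : Fin (m + r) → Fin n}
    (hd : IsTuple t0 w m r c g L d) {j : Fin (m + r)} {k : ℕ} (hk : k ≤ j) :
    d j ∈ TT t0 w (pass c m g) L k := TT_anti hk (Win_sub_TT hL (sel_mem (hd j)))

/-- the sets of the process, in terms of the final set -/
lemma TT_inter_eq {L : List (Fin n)} (hL : L.Nodup) {d : Fin (m + r) → Fin n}
    (hd : IsTuple t0 w m r c g L d) {k : ℕ} (hk : k < m + r) :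
    (TT t0 w (pass c m g) L (m + r) ∪ ext m (fun b : Fin r => d (Fin.natAdd m b)) k) ∩ Ck c m k =
      TT t0 w (pass c m g) L (k + 1) ∩ Ck c m k := by
  ext x
  simp only [mem_inter, mem_union, mem_ext]
  refine and_congr_left fun hx => ?_
  constructor
  · rintro (h | ⟨b, hb, rfl⟩)
    · exact TT_anti hk h
    · exact tuple_mem hL hd (by simp only [Fin.val_natAdd]; omega)
  · intro h
    by_cases hT : x ∈ TT t0 w (pass c m g) L (m + r)
    · exact Or.inl hT
    · right
      rw [mem_TT_iff hd le_rfl] at hT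
      rw [mem_TT_iff hd hk] at h
      push Not at hT
      obtain ⟨j, hj, hjx⟩ := hT h.1
      have hkj : k < j := by
        by_contra h'
        exact h.2 j (by omega) hjx
      have hcj := tuple_cls hd j
      rw [hjx] at hcj
      rw [mem_Ck] at hx
      have hmj : m ≤ j := by
        by_contra h'
        push Not at h'
        rw [min_eq_left h'.le] at hcj
        omega
      refine ⟨⟨j - m, by omega⟩, ?_, ?_⟩
      · simp only; omega
      · rw [← hjx]
        congr 1
        apply Fin.ext
        simp only [Fin.val_natAdd]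
        omega

lemma VT_final {L : List (Fin n)} (hL : L.Nodup)
    (hok : ok t0 w (m + r) (pass c m g) L) :
    VT m r c g (TT t0 w (pass c m g) L (m + r)) := by
  obtain ⟨d, hd⟩ := exists_tuple hok
  refine ⟨fun b => d (Fin.natAdd m b), fun b => ⟨?_, ?_⟩, fun k hk => ?_⟩
  · rw [tuple_cls hd]
    simp
  · rw [mem_TT_iff hd le_rfl]
    rintro ⟨_, h⟩
    exact h (Fin.natAdd m b) (Fin.natAdd m b).2 rfl
  · rw [TT_inter_eq hL hd hk]
    exact tuple_test hd ⟨k, hk⟩

open Classical in
theorem proto_valid (hM : t0 + (m + r) * w + 1 ≤ n) : (proto t0 w m r c g).Valid := by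
  intro σ b ℓ hℓ
  simp only [proto]
  split_ifs with hcard
  · exact mem_univ _
  have hok : ok t0 w (m + r) (pass c m g) (List.ofFn σ) := by
    by_contra h
    exact hcard (card_supp_not_ok σ b h)
  have hℓT : ℓ ∈ TT t0 w (pass c m g) (List.ofFn σ) (m + r) :=
    mem_TT_of_drop (nodup_L σ) ((mem_drop_iff σ ℓ _).2 (by omega))
  rw [mem_union]
  cases b with
  | true =>
    left
    have := supp_ok_one σ hM hok
    unfold proto at this
    rw [this]
    exact hℓT
  | false =>
    right
    rw [mem_filter]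
    refine ⟨mem_univ _, ?_⟩
    have := supp_ok_zero σ hok ℓ hℓ
    unfold proto at this
    rw [this, insert_erase hℓT]
    exact VT_final (nodup_L σ) hok

end correct

end H644R2.GKS
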